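import Mathlib

set_option autoImplicit false

/-!
Upper bounds for discriminants of simple extensions of number fields.
-/

namespace Pool.Agent.Y733.VR

open NumberField Module IntermediateField Polynomial

/-- `log |disc K| / [K : ℚ]` -/
noncomputable def ld (K : Type) [Field K] [NumberField K] : ℝ :=
  Real.log |(discr K : ℝ)| / finrank ℚ K

lemma log_discr (K L : Type) [Field K] [NumberField K] [Field L] [NumberField L] [Algebra K L] :
    Real.log |(discr L : ℝ)| = Real.log ((Ideal.absNorm (differentIdeal (𝓞 K) (𝓞 L)) : ℕ) : ℝ) +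
      finrank K L * Real.log |(discr K : ℝ)| := by
  have h := natAbs_discr_eq_absNorm_differentIdeal_mul_natAbs_discr_pow K (𝓞 K) L (𝓞 L)
  have h1 : ∀ M : Type, ∀ [Field M] [NumberField M],
      |(discr M : ℝ)| = (((discr M).natAbs : ℕ) : ℝ) := by
    intro M _ _
    rw [Nat.cast_natAbs]
    push_cast
    rfl
  have hd : (((discr K).natAbs : ℕ) : ℝ) ≠ 0 := by
    exact_mod_cast Int.natAbs_ne_zero.2 (discr_ne_zero K)
  have hL : (((discr L).natAbs : ℕ) : ℝ) ≠ 0 := by
    exact_mod_cast Int.natAbs_ne_zero.2 (discr_ne_zero L)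
  rw [h1 L, h1 K, h]
  rw [h] at hL
  push_cast at hL ⊢
  rw [Real.log_mul (left_ne_zero_of_mul hL) (pow_ne_zero _ hd), Real.log_pow]

lemma finrank_tower (K L : Type) [Field K] [NumberField K] [Field L] [NumberField L] [Algebra K L] :
    (finrank ℚ L : ℝ) = finrank ℚ K * finrank K L := by
  exact_mod_cast (finrank_mul_finrank ℚ K L).symm

lemma ld_mono (K L : Type) [Field K] [NumberField K] [Field L] [NumberField L] [Algebra K L] :
    ld K ≤ ld L := by
  have h1 := log_discr K L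
  have h2 : 0 ≤ Real.log ((Ideal.absNorm (differentIdeal (𝓞 K) (𝓞 L)) : ℕ) : ℝ) :=
    Real.log_natCast_nonneg _
  have hK : (0 : ℝ) < finrank ℚ K := by exact_mod_cast finrank_pos
  have hKL : (0 : ℝ) < finrank K L := by exact_mod_cast finrank_pos
  unfold ld
  rw [finrank_tower K L, div_le_div_iff₀ hK (mul_pos hK hKL), h1]
  have h3 : 0 ≤ Real.log ((Ideal.absNorm (differentIdeal (𝓞 K) (𝓞 L)) : ℕ) : ℝ) * finrank ℚ K :=
    mul_nonneg h2 hK.le
  nlinarith

/-- the different contains the derivatives of the polynomials with the root `β` -/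
lemma deriv_mem (K L : Type) [Field K] [NumberField K] [Field L] [NumberField L] [Algebra K L]
    (β : 𝓞 L) (hβ : K⟮(β : L)⟯ = ⊤) (f : (𝓞 K)[X]) (hf : aeval β f = 0) :
    aeval β (derivative f) ∈ differentIdeal (𝓞 K) (𝓞 L) := by
  have hβ' : Algebra.adjoin K {algebraMap (𝓞 L) L β} = ⊤ := by
    have h := adjoin_simple_toSubalgebra_of_isAlgebraic
      (Algebra.IsAlgebraic.isAlgebraic (R := K) (β : L))
    rw [hβ, top_toSubalgebra] at h
    exact h.symm
  have h1 : aeval β (derivative (minpoly (𝓞 K) β)) ∈ differentIdeal (𝓞 K) (𝓞 L) :=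
    aeval_derivative_mem_differentIdeal (𝓞 K) K L β hβ'
  have hint : IsIntegral (𝓞 K) β := Algebra.IsIntegral.isIntegral β
  obtain ⟨g, hg⟩ := minpoly.isIntegrallyClosed_dvd hint hf
  rw [hg, derivative_mul, map_add, map_mul, map_mul, minpoly.aeval, zero_mul, add_zero]
  exact Ideal.mul_mem_right _ _ h1

/-- the discriminant of `K(β)` -/
lemma ld_le (K L : Type) [Field K] [NumberField K] [Field L] [NumberField L] [Algebra K L]
    (β : 𝓞 L) (hβ : K⟮(β : L)⟯ = ⊤) (f : (𝓞 K)[X]) (hf : aeval β f = 0)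
    (h0 : aeval β (derivative f) ≠ 0) :
    ld L ≤ ld K + Real.log |(Algebra.norm ℚ ((aeval β (derivative f) : 𝓞 L) : L) : ℝ)| /
      finrank ℚ L := by
  have h1 := log_discr K L
  have hK : (0 : ℝ) < finrank ℚ K := by exact_mod_cast finrank_pos
  have hKL : (0 : ℝ) < finrank K L := by exact_mod_cast finrank_pos
  set γ : 𝓞 L := aeval β (derivative f) with hγ
  have h2 : Ideal.absNorm (differentIdeal (𝓞 K) (𝓞 L)) ∣ Ideal.absNorm (Ideal.span {γ}) :=
    Ideal.absNorm_dvd_absNorm_of_le ((Ideal.span_singleton_le_iff_mem _).2 (deriv_mem K L β hβ f hf))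
  have h3 : Ideal.absNorm (Ideal.span {γ}) ≠ 0 := by
    rw [Ne, Ideal.absNorm_eq_zero_iff, Ideal.span_singleton_eq_bot]
    exact h0
  have h4 : Real.log ((Ideal.absNorm (differentIdeal (𝓞 K) (𝓞 L)) : ℕ) : ℝ) ≤
      Real.log ((Ideal.absNorm (Ideal.span {γ}) : ℕ) : ℝ) := by
    refine Real.log_le_log ?_ (by exact_mod_cast Nat.le_of_dvd (Nat.pos_of_ne_zero h3) h2)
    have : Ideal.absNorm (differentIdeal (𝓞 K) (𝓞 L)) ≠ 0 := fun h => h3 (by
      rw [h] at h2
      exact Nat.eq_zero_of_zero_dvd h2)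
    exact_mod_cast Nat.pos_of_ne_zero this
  have h5 : ((Ideal.absNorm (Ideal.span {γ}) : ℕ) : ℝ) = |(Algebra.norm ℚ (γ : L) : ℝ)| := by
    rw [Ideal.absNorm_span_singleton, Nat.cast_natAbs]
    have : (Algebra.norm ℚ (γ : L)) = ((Algebra.norm ℤ γ : ℤ) : ℚ) := by
      rw [Algebra.coe_norm_int]
    rw [this]
    push_cast
    rfl
  rw [h5] at h4
  unfold ld
  rw [h1, add_div, finrank_tower K L]
  have h6 : (finrank K L : ℝ) * Real.log |(discr K : ℝ)| / (finrank ℚ K * finrank K L) =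
      Real.log |(discr K : ℝ)| / finrank ℚ K := by
    field_simp
  rw [h6, add_comm]
  gcongr

end Pool.Agent.Y733.VR
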