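import Mathlib
import Pool.Agent.Helper259.HtExt
import Pool.Agent.Y733.VR.Disc

set_option autoImplicit false

/-!
Normalised logarithmic heights.
-/

namespace Pool.Agent.Y733.VR

open NumberField Module Height Real

/-- the absolute logarithmic height, computed in `K` -/
noncomputable def hh {K : Type} [Field K] [NumberField K] (x : K) : ℝ :=
  logHeight₁ x / finrank ℚ K

section
variable {K : Type} [Field K] [NumberField K]

lemma deg_pos : (0 : ℝ) < finrank ℚ K := by exact_mod_cast finrank_pos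

lemma hh_mul_deg (x : K) : logHeight₁ x = hh x * finrank ℚ K := by
  unfold hh
  rw [div_mul_cancel₀ _ deg_pos.ne']

lemma hh_nonneg (x : K) : 0 ≤ hh x := div_nonneg (zero_le_logHeight₁ x) deg_pos.le

lemma hh_ext (L : Type) [Field L] [NumberField L] [Algebra K L] (x : K) :
    hh (algebraMap K L x) = hh x := by
  have h := Pool.Agent.Helper259.HtExt.logHeight_ext (L := L) ![x, 1]
  have h2 : (fun i => algebraMap K L (![x, 1] i)) = ![algebraMap K L x, 1] := by
    funext i
    fin_cases i <;> simp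
  rw [h2, ← logHeight₁_eq_logHeight, ← logHeight₁_eq_logHeight] at h
  unfold hh
  rw [h, finrank_tower K L]
  have hK : (0 : ℝ) < finrank ℚ K := deg_pos
  have hKL : (0 : ℝ) < finrank K L := by
    have : FiniteDimensional K L := inferInstance
    exact_mod_cast finrank_pos
  field_simp

lemma hh_add_le (x y : K) : hh (x + y) ≤ hh x + hh y + Real.log 2 := by
  have h := logHeight₁_add_le x y
  rw [totalWeight_eq_finrank] at h
  unfold hh
  rw [← add_div, div_le_iff₀ deg_pos, add_mul, div_mul_cancel₀ _ deg_pos.ne']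
  linarith

lemma hh_neg (x : K) : hh (-x) = hh x := by
  unfold hh
  rw [logHeight₁_neg]

lemma hh_sub_le (x y : K) : hh (x - y) ≤ hh x + hh y + Real.log 2 := by
  have h := hh_add_le x (-y)
  rwa [hh_neg, ← sub_eq_add_neg] at h

lemma hh_mul_le (x y : K) : hh (x * y) ≤ hh x + hh y := by
  have h := logHeight₁_mul_le x y
  unfold hh
  rw [← add_div]
  exact div_le_div_of_nonneg_right h deg_pos.le

lemma hh_inv (x : K) : hh x⁻¹ = hh x := by
  unfold hh
  rw [logHeight₁_inv]

lemma hh_div_le (x y : K) : hh (x / y) ≤ hh x + hh y := by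
  have h := hh_mul_le x y⁻¹
  rwa [hh_inv, ← div_eq_mul_inv] at h

lemma hh_pow (x : K) (n : ℕ) : hh (x ^ n) = n * hh x := by
  unfold hh
  rw [logHeight₁_pow, mul_div_assoc]

lemma hh_one : hh (1 : K) = 0 := by
  unfold hh
  rw [logHeight₁_one, zero_div]

lemma hh_natCast (n : ℕ) [NeZero n] : hh (n : K) = Real.log n := by
  have h := hh_ext (K := ℚ) K (n : ℚ)
  rw [map_natCast] at h
  rw [h]
  unfold hh
  rw [Rat.logHeight₁_natCast, finrank_self, Nat.cast_one, div_one]

/-- the height is at least the sum over the infinite places -/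
lemma inf_le (x : K) :
    (∑ v : InfinitePlace K, v.mult * log⁺ (v x)) / finrank ℚ K ≤ hh x := by
  unfold hh
  refine div_le_div_of_nonneg_right ?_ deg_pos.le
  rw [NumberField.logHeight₁_eq]
  have : 0 ≤ ∑ᶠ v : FinitePlace K, log⁺ (v x) := finsum_nonneg fun _ => posLog_nonneg
  linarith

lemma inf_eq (x : K) (hx : IsIntegral ℤ x) :
    (∑ v : InfinitePlace K, v.mult * log⁺ (v x)) / finrank ℚ K = hh x := by
  unfold hh
  congr 1
  rw [NumberField.logHeight₁_eq]
  have h : ∀ v : FinitePlace K, log⁺ (v x) = 0 := by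
    intro v
    rw [posLog_eq_zero_iff, abs_of_nonneg (apply_nonneg v x)]
    have h1 := FinitePlace.norm_le_one (K := K) (v := v.maximalIdeal) (⟨x, hx⟩ : 𝓞 K)
    rw [← FinitePlace.norm_embedding_eq v x]
    exact h1
  rw [finsum_congr h, finsum_zero, add_zero]

/-- the norm is bounded by the height -/
lemma log_norm_le (x : K) (hx : x ≠ 0) :
    Real.log |(Algebra.norm ℚ x : ℝ)| / finrank ℚ K ≤ hh x := by
  refine le_trans ?_ (inf_le x)
  refine div_le_div_of_nonneg_right ?_ deg_pos.le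
  have h := InfinitePlace.prod_eq_abs_norm x
  have h1 : |(Algebra.norm ℚ x : ℝ)| = ((|Algebra.norm ℚ x| : ℚ) : ℝ) := by push_cast; rfl
  rw [h1, ← h, Real.log_prod]
  · refine Finset.sum_le_sum fun v _ => ?_
    rw [Real.log_pow]
    refine mul_le_mul_of_nonneg_left ?_ (Nat.cast_nonneg _)
    exact le_max_right _ _
  · intro v _
    exact pow_ne_zero _ (v.pos_iff.2 hx).ne'

/-- normalised logarithm of the norm -/
noncomputable def ln (x : K) : ℝ := Real.log |(Algebra.norm ℚ x : ℝ)| / finrank ℚ K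

lemma norm_ne (x : K) (hx : x ≠ 0) : (Algebra.norm ℚ x : ℝ) ≠ 0 := by
  have : Algebra.norm ℚ x ≠ 0 := Algebra.norm_ne_zero_iff.2 hx
  exact_mod_cast this

lemma ln_mul (x y : K) (hx : x ≠ 0) (hy : y ≠ 0) : ln (x * y) = ln x + ln y := by
  unfold ln
  rw [map_mul, ← add_div]
  push_cast
  rw [abs_mul, Real.log_mul (abs_ne_zero.2 (norm_ne x hx)) (abs_ne_zero.2 (norm_ne y hy))]

lemma ln_nonneg (x : K) (hx : IsIntegral ℤ x) (h0 : x ≠ 0) : 0 ≤ ln x := by
  unfold ln
  refine div_nonneg (Real.log_nonneg ?_) deg_pos.le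
  have h1 : IsIntegral ℤ (Algebra.norm ℚ x) := Algebra.isIntegral_norm ℚ hx
  obtain ⟨z, hz⟩ := (IsIntegrallyClosed.isIntegral_iff).1 h1
  have hz0 : z ≠ 0 := by
    rintro rfl
    rw [map_zero] at hz
    exact Algebra.norm_ne_zero_iff.2 h0 hz.symm
  rw [← hz]
  have : (1 : ℤ) ≤ |z| := Int.one_le_abs hz0
  have h2 : (((algebraMap ℤ ℚ z : ℚ)) : ℝ) = (z : ℝ) := by simp
  rw [h2]
  exact_mod_cast this

lemma ln_natCast (n : ℕ) (hn : n ≠ 0) : ln (n : K) = Real.log n := by
  unfold ln
  have h : Algebra.norm ℚ (n : K) = (n : ℚ) ^ finrank ℚ K := by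
    have := Algebra.norm_algebraMap (R := ℚ) (S := K) (n : ℚ)
    rwa [map_natCast] at this
  rw [h]
  push_cast
  rw [abs_pow, Real.log_pow, abs_of_nonneg (Nat.cast_nonneg n), mul_div_assoc, mul_comm,
    div_mul_cancel₀ _ deg_pos.ne']

end

end Pool.Agent.Y733.VR
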