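import Mathlib
import Pool.Agent.Y733.VR.Ht

set_option autoImplicit false

/-!
Adjoining a square root inside the complex numbers.
-/

namespace Pool.Agent.Y733.VR

open NumberField Module IntermediateField Polynomial

/-- an intermediate field `K(S)` is generated by `S` -/
theorem adjoin_self_top {K E : Type*} [Field K] [Field E] [Algebra K E] (S : Set E)
    (T : Set (IntermediateField.adjoin K S)) (hT : Subtype.val '' T = S) :
    IntermediateField.adjoin K T = ⊤ := by
  apply IntermediateField.lift_injective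
  rw [IntermediateField.lift_adjoin, IntermediateField.lift_top, hT]

theorem ext_sqrt (L : Type) [Field L] [NumberField L] (σ : L →+* ℂ) (a : L) (z : ℂ)
    (hz : z ^ 2 = σ a) :
    ∃ (M : Type) (_ : Field M) (_ : NumberField M) (_ : Algebra L M) (τ : M →+* ℂ) (b : M),
      (∀ x, τ (algebraMap L M x) = σ x) ∧ τ b = z ∧ b ^ 2 = algebraMap L M a ∧ L⟮b⟯ = ⊤ ∧
        finrank L M ≤ 2 := by
  let _ : Algebra L ℂ := σ.toAlgebra
  have hpm : (X ^ 2 - C a : L[X]).Monic := monic_X_pow_sub_C a two_ne_zero
  have hev : aeval z (X ^ 2 - C a : L[X]) = 0 := by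
    rw [map_sub, map_pow, aeval_X, aeval_C, hz]
    exact sub_self _
  have hint : IsIntegral L z := ⟨X ^ 2 - C a, hpm, by rw [← aeval_def]; exact hev⟩
  have hfd : FiniteDimensional L L⟮z⟯ := adjoin.finiteDimensional hint
  have hNF : NumberField L⟮z⟯ := NumberField.of_module_finite L L⟮z⟯
  refine ⟨L⟮z⟯, inferInstance, hNF, inferInstance, (L⟮z⟯.val : L⟮z⟯ →+* ℂ),
    AdjoinSimple.gen L z, fun x => ?_, ?_, ?_, ?_, ?_⟩
  · rfl
  · exact AdjoinSimple.coe_gen L z
  · apply Subtype.ext
    rw [SubmonoidClass.coe_pow, AdjoinSimple.coe_gen, hz]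
    rfl
  · refine adjoin_self_top {z} {AdjoinSimple.gen L z} ?_
    rw [Set.image_singleton, AdjoinSimple.coe_gen]
  · rw [adjoin.finrank hint]
    have h1 := minpoly.min L z hpm hev
    have h2 : (X ^ 2 - C a : L[X]).natDegree = 2 := natDegree_X_pow_sub_C
    rw [← h2]
    exact natDegree_le_natDegree h1

end Pool.Agent.Y733.VR
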