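import Mathlib
import Pool.Agent.Y733.VR.Ext

set_option autoImplicit false

/-!
The tower of fields `K(u_0, u_1, ...)`, `u_{i+1} = 2 √u_i / (1 + u_i)`.
-/

namespace Pool.Agent.Y733.VR

open NumberField Module IntermediateField Polynomial Height

/-- `u` is an algebraic integer which divides `4`, `1 + u` and `1 - u` are units (up to
integrality, which follows), and `σ u = r` is real, `0 < r < 1`. -/
structure Inv {L : Type} [Field L] (σ : L →+* ℂ) (u : L) (r : ℝ) : Prop where
  int : IsIntegral ℤ u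
  int4 : IsIntegral ℤ (4 / u)
  hp : IsIntegral ℤ (1 + u)⁻¹
  hm : IsIntegral ℤ (1 - u)⁻¹
  real : σ u = r
  pos : 0 < r
  lt : r < 1

lemma isIntegral_map {L M : Type} [Field L] [Field M] (f : L →+* M) {x : L} (hx : IsIntegral ℤ x) :
    IsIntegral ℤ (f x) := hx.map f.toIntAlgHom

lemma Inv.map {L M : Type} [Field L] [Field M] {σ : L →+* ℂ} {τ : M →+* ℂ} {u : L} {r : ℝ}
    (h : Inv σ u r) (f : L →+* M) (hf : ∀ x, τ (f x) = σ x) : Inv τ (f u) r where
  int := isIntegral_map f h.int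
  int4 := by
    have := isIntegral_map f h.int4
    rwa [map_div₀, map_ofNat] at this
  hp := by
    have := isIntegral_map f h.hp
    rwa [map_inv₀, map_add, map_one] at this
  hm := by
    have := isIntegral_map f h.hm
    rwa [map_inv₀, map_sub, map_one] at this
  real := by rw [hf, h.real]
  pos := h.pos
  lt := h.lt

section
variable {L : Type} [Field L] {σ : L →+* ℂ} {u : L} {r : ℝ}

lemma Inv.ne_zero (h : Inv σ u r) : u ≠ 0 := by
  rintro rfl
  have := h.real
  rw [map_zero] at this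
  have h2 : r = 0 := by exact_mod_cast this.symm
  have := h.pos
  linarith

lemma Inv.add_ne (h : Inv σ u r) : 1 + u ≠ 0 := by
  intro h0
  have h1 : σ (1 + u) = ((1 + r : ℝ) : ℂ) := by rw [map_add, map_one, h.real]; push_cast; rfl
  rw [h0, map_zero] at h1
  have h2 : 1 + r = 0 := by exact_mod_cast h1.symm
  have := h.pos
  linarith

lemma Inv.sub_ne (h : Inv σ u r) : 1 - u ≠ 0 := by
  intro h0
  have h1 : σ (1 - u) = ((1 - r : ℝ) : ℂ) := by rw [map_sub, map_one, h.real]; push_cast; rfl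
  rw [h0, map_zero] at h1
  have h2 : 1 - r = 0 := by exact_mod_cast h1.symm
  have := h.lt
  linarith

lemma isInt_nat (n : ℕ) : IsIntegral ℤ (n : L) := by
  have := isIntegral_algebraMap (R := ℤ) (A := L) (x := (n : ℤ))
  simpa using this

/-- the next member -/
lemma Inv.next (h : Inv σ u r) {v : L} (hv : v ^ 2 = u) (hσ : σ v = (Real.sqrt r : ℝ)) :
    Inv σ (2 * v / (1 + u)) (2 * Real.sqrt r / (1 + r)) ∧
      1 - (2 * v / (1 + u)) ^ 2 = ((1 - u) / (1 + u)) ^ 2 := by
  have hv0 : v ≠ 0 := by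
    rintro rfl
    apply h.ne_zero
    rw [← hv]; ring
  have hu1 := h.add_ne
  have hu2 := h.sub_ne
  have hu0 := h.ne_zero
  have hvint : IsIntegral ℤ v := IsIntegral.of_pow (n := 2) two_pos (by rw [hv]; exact h.int)
  have hs0 : 0 < Real.sqrt r := Real.sqrt_pos.2 h.pos
  have hs2 : Real.sqrt r ^ 2 = r := Real.sq_sqrt h.pos.le
  have hs1 : Real.sqrt r < 1 := by
    rw [Real.sqrt_lt' one_pos]; simpa using h.lt
  have hprod : (1 + v) * (1 - v) = 1 - u := by rw [← hv]; ring
  have hv1 : 1 + v ≠ 0 := left_ne_zero_of_mul (hprod ▸ hu2)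
  have hv2 : 1 - v ≠ 0 := right_ne_zero_of_mul (hprod ▸ hu2)
  have i1 : IsIntegral ℤ (1 + v)⁻¹ := by
    have : (1 + v)⁻¹ = (1 - v) * (1 - u)⁻¹ := by
      rw [← hprod]; field_simp
    rw [this]
    exact ((isIntegral_one).sub hvint).mul h.hm
  have i2 : IsIntegral ℤ (1 - v)⁻¹ := by
    have : (1 - v)⁻¹ = (1 + v) * (1 - u)⁻¹ := by
      rw [← hprod]; field_simp
    rw [this]
    exact ((isIntegral_one).add hvint).mul h.hm
  have e1 : 1 + 2 * v / (1 + u) = (1 + v) ^ 2 / (1 + u) := by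
    field_simp; rw [← hv]; ring
  have e2 : 1 - 2 * v / (1 + u) = (1 - v) ^ 2 / (1 + u) := by
    field_simp; rw [← hv]; ring
  have h2int : IsIntegral ℤ (2 : L) := by exact_mod_cast isInt_nat (L := L) 2
  have h4int : IsIntegral ℤ (4 : L) := by exact_mod_cast isInt_nat (L := L) 4
  refine ⟨⟨?_, ?_, ?_, ?_, ?_, ?_, ?_⟩, ?_⟩
  · rw [div_eq_mul_inv]
    exact (h2int.mul hvint).mul h.hp
  · refine IsIntegral.of_pow (n := 2) two_pos ?_
    by_cases h2 : (2 : L) = 0
    · have : 4 / (2 * v / (1 + u)) = 0 := by rw [h2]; simp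
      rw [this]
      simpa using (isIntegral_zero (R := ℤ) (B := L))
    · have : (4 / (2 * v / (1 + u))) ^ 2 = (4 / u) * (1 + u) ^ 2 := by
        rw [← hv]
        field_simp
        ring
      rw [this]
      exact h.int4.mul (((isIntegral_one).add h.int).pow 2)
  · rw [e1, inv_div, div_eq_mul_inv, ← inv_pow]
    exact ((isIntegral_one).add h.int).mul (i1.pow 2)
  · rw [e2, inv_div, div_eq_mul_inv, ← inv_pow]
    exact ((isIntegral_one).add h.int).mul (i2.pow 2)
  · rw [map_div₀, map_mul, map_add, map_one, map_ofNat, hσ, h.real]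
    push_cast
    rfl
  · have := h.pos
    positivity
  · have := h.pos
    rw [div_lt_one (by linarith)]
    nlinarith [sq_nonneg (1 - Real.sqrt r), mul_pos hs0 hs0]
  · rw [← hv]
    rw [← hv] at hu1
    field_simp
    ring

end

/-- the real numbers -/
lemma real_next {r : ℝ} (h0 : 0 < r) (h1 : r < 1) :
    (1 - r ^ 2) ^ 2 / 16 ≤ 1 - (2 * Real.sqrt r / (1 + r)) ^ 2 ∧
      1 - (2 * Real.sqrt r / (1 + r)) ^ 2 ≤ (1 - r ^ 2) ^ 2 := by
  have hs2 : Real.sqrt r ^ 2 = r := Real.sq_sqrt h0.le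
  have e : 1 - (2 * Real.sqrt r / (1 + r)) ^ 2 = (1 - r ^ 2) ^ 2 / (1 + r) ^ 4 := by
    rw [div_pow, mul_pow, hs2]
    field_simp
    ring
  have h3 : 0 ≤ (1 - r ^ 2) ^ 2 := sq_nonneg _
  have h4 : (1 : ℝ) ≤ (1 + r) ^ 4 := one_le_pow₀ (by linarith)
  have h5 : (1 + r) ^ 4 ≤ 16 := by
    calc (1 + r) ^ 4 ≤ 2 ^ 4 := pow_le_pow_left₀ (by linarith) (by linarith) 4
      _ = 16 := by norm_num
  rw [e]
  refine ⟨?_, ?_⟩
  · exact div_le_div_of_nonneg_left h3 (by positivity) h5
  · exact div_le_self h3 h4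

section
variable {L : Type} [Field L] [NumberField L]

/-- the height of the next member -/
lemma hh_next {u w : L} (h1 : 1 + u ≠ 0) (hw : 1 - w ^ 2 = ((1 - u) / (1 + u)) ^ 2) :
    hh (1 - u ^ 2) ≤ hh (1 - w ^ 2) + 7 * Real.log 2 := by
  set z : L := (1 - u) / (1 + u) with hz
  have hz1 : 1 + z ≠ 0 := by
    have : 1 + z = 2 / (1 + u) := by rw [hz]; field_simp; ring
    rw [this]
    exact div_ne_zero two_ne_zero h1
  have hu : u = 2 / (1 + z) - 1 := by
    rw [hz]
    field_simp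
    ring_nf
  have e2 : hh (2 : L) = Real.log 2 := by
    have := hh_natCast (K := L) 2
    exact_mod_cast this
  have e4 : hh u ≤ hh z + 3 * Real.log 2 := by
    have a1 := hh_sub_le (2 / (1 + z)) 1
    have a2 := hh_div_le 2 (1 + z)
    have a3 := hh_add_le 1 z
    rw [← hu] at a1
    rw [hh_one] at a1 a3
    linarith
  have a1 := hh_sub_le 1 (u ^ 2)
  rw [hh_pow, hh_one] at a1
  have a2 : hh (1 - w ^ 2) = 2 * hh z := by
    rw [hw, hh_pow]
    push_cast
    rfl
  push_cast at a1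
  linarith

/-- the discriminant of the extension by the square root of a divisor of `4` -/
lemma ld_sqrt {M : Type} [Field M] [NumberField M] [Algebra L M] {u : L} (hu0 : u ≠ 0)
    (hu : IsIntegral ℤ u) (h4 : IsIntegral ℤ (4 / u)) {v : M} (hv : v ^ 2 = algebraMap L M u)
    (htop : L⟮v⟯ = ⊤) : ld M ≤ ld L + 2 * Real.log 2 := by
  have hu' : algebraMap L M u ≠ 0 := by
    rwa [Ne, FaithfulSMul.algebraMap_eq_zero_iff]
  have hv0 : v ≠ 0 := by
    rintro rfl
    apply hu'
    rw [← hv]; ring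
  have hvint : IsIntegral ℤ v := IsIntegral.of_pow (n := 2) two_pos (by
    rw [hv]; exact isIntegral_map _ hu)
  set β : 𝓞 M := ⟨v, hvint⟩ with hβ
  set a : 𝓞 L := ⟨u, hu⟩ with ha
  have hβv : (β : M) = v := rfl
  have hroot : aeval β (X ^ 2 - C a : (𝓞 L)[X]) = 0 := by
    apply RingOfIntegers.coe_injective
    rw [map_sub, map_pow, aeval_X, aeval_C, map_sub, map_pow, map_zero]
    have : algebraMap (𝓞 M) M (algebraMap (𝓞 L) (𝓞 M) a) = algebraMap L M u := rfl
    rw [this, ← hv]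
    exact sub_self _
  have hder : aeval β (derivative (X ^ 2 - C a : (𝓞 L)[X])) = 2 * β := by
    simp
    left
    norm_num
  have h := ld_le L M β htop (X ^ 2 - C a) hroot (by
    rw [hder]
    intro h0
    have h1 : (2 * β : 𝓞 M) = 0 := h0
    have h2 : ((2 * β : 𝓞 M) : M) = 0 := by rw [h1]; rfl
    have h3 : ((2 * β : 𝓞 M) : M) = 2 * v := by
      push_cast
      rfl
    rw [h3] at h2
    exact (mul_ne_zero two_ne_zero hv0) h2)
  rw [hder] at h
  have h3 : ((2 * β : 𝓞 M) : M) = 2 * v := by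
    push_cast
    rfl
  rw [h3] at h
  have h5 : ln (2 * v : M) ≤ 2 * Real.log 2 := by
    have e1 : (2 * v) * (2 * v) * (algebraMap L M (4 / u)) = ((16 : ℕ) : M) := by
      rw [map_div₀, map_ofNat]
      have : (2 * v) * (2 * v) = 4 * algebraMap L M u := by rw [← hv]; ring
      rw [this]
      push_cast
      field_simp
      norm_num
    have h2v : (2 * v : M) ≠ 0 := mul_ne_zero two_ne_zero hv0
    have h4u : algebraMap L M (4 / u) ≠ 0 := by
      rw [map_div₀, map_ofNat]
      exact div_ne_zero (by norm_num) hu'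
    have e2 := congrArg ln e1
    rw [ln_mul _ _ (mul_ne_zero h2v h2v) h4u, ln_mul _ _ h2v h2v, ln_natCast 16 (by norm_num)] at e2
    have e3 := ln_nonneg _ (isIntegral_map (algebraMap L M) h4) h4u
    have e4 : Real.log ((16 : ℕ) : ℝ) = 4 * Real.log 2 := by
      rw [show ((16 : ℕ) : ℝ) = 2 ^ 4 by norm_num, Real.log_pow]
      push_cast; rfl
    rw [e4] at e2
    linarith
  unfold ln at h5
  linarith

end

theorem tower (j : ℕ) (K : Type) [Field K] [NumberField K] (σ : K →+* ℂ) (u₀ : K) (r₀ : ℝ)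
    (h : Inv σ u₀ r₀) :
    ∃ (L : Type) (_ : Field L) (_ : NumberField L) (_ : Algebra K L) (τ : L →+* ℂ) (u : ℕ → L)
      (r : ℕ → ℝ),
      (∀ x, τ (algebraMap K L x) = σ x) ∧ u 0 = algebraMap K L u₀ ∧ r 0 = r₀ ∧
      (∀ i ≤ j, Inv τ (u i) (r i)) ∧
      (∀ i < j, hh (1 - u i ^ 2) ≤ hh (1 - u (i + 1) ^ 2) + 7 * Real.log 2 ∧
        (1 - r i ^ 2) ^ 2 / 16 ≤ 1 - r (i + 1) ^ 2 ∧ 1 - r (i + 1) ^ 2 ≤ (1 - r i ^ 2) ^ 2) ∧
      finrank K L ≤ 2 ^ j ∧ ld L ≤ ld K + j * (2 * Real.log 2) := by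
  induction j with
  | zero =>
    refine ⟨K, inferInstance, inferInstance, inferInstance, σ, fun _ => u₀, fun _ => r₀,
      fun x => rfl, rfl, rfl, fun i _ => h, fun i hi => absurd hi (Nat.not_lt_zero i), ?_, ?_⟩
    · rw [finrank_self, pow_zero]
    · simp
  | succ j ih =>
    obtain ⟨L, iF, iN, iA, τ, u, r, h1, h2, h3, h4, h5, h6, h7⟩ := ih
    have hj := h4 j le_rfl
    have hs2 : ((Real.sqrt (r j) : ℝ) : ℂ) ^ 2 = τ (u j) := by
      rw [hj.real, ← Complex.ofReal_pow, Real.sq_sqrt hj.pos.le]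
    obtain ⟨M, jF, jN, jA, τ', v, g1, g2, g3, g4, g5⟩ := ext_sqrt L τ (u j) _ hs2
    let _ : Algebra K M := ((algebraMap L M).comp (algebraMap K L)).toAlgebra
    have hst : IsScalarTower K L M := IsScalarTower.of_algebraMap_eq (fun x => rfl)
    have hj' : Inv τ' (algebraMap L M (u j)) (r j) := hj.map (algebraMap L M) g1
    obtain ⟨hn1, hn2⟩ := hj'.next g3 g2
    refine ⟨M, jF, jN, inferInstance, τ',
      fun i => if i ≤ j then algebraMap L M (u i) else 2 * v / (1 + algebraMap L M (u j)),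
      fun i => if i ≤ j then r i else 2 * Real.sqrt (r j) / (1 + r j), ?_, ?_, ?_, ?_, ?_, ?_, ?_⟩
    · intro x
      rw [← h1 x, ← g1 (algebraMap K L x)]
      rfl
    · simp only [Nat.zero_le, if_true, h2]
      rfl
    · simp only [Nat.zero_le, if_true, h3]
    · intro i hi
      by_cases hij : i ≤ j
      · simp only [if_pos hij]
        exact (h4 i hij).map (algebraMap L M) g1
      · simp only [if_neg hij]
        exact hn1
    · intro i hi
      by_cases hij : i + 1 ≤ j
      · have hij' : i ≤ j := by omega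
        simp only [if_pos hij, if_pos hij']
        obtain ⟨a1, a2, a3⟩ := h5 i (by omega)
        refine ⟨?_, a2, a3⟩
        have e : ∀ y : L, hh (1 - algebraMap L M y ^ 2) = hh (1 - y ^ 2) := by
          intro y
          rw [← hh_ext M (1 - y ^ 2), map_sub, map_one, map_pow]
        rw [e, e]
        exact a1
      · have hij' : i = j := by omega
        subst hij'
        simp only [if_neg hij, le_refl, if_true]
        refine ⟨hh_next hj'.add_ne hn2, real_next hj.pos hj.lt⟩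
    · rw [← finrank_mul_finrank K L M, pow_succ]
      exact Nat.mul_le_mul h6 g5
    · have h8 := ld_sqrt (L := L) (M := M) hj.ne_zero hj.int hj.int4 g3 g4
      push_cast
      linarith

end Pool.Agent.Y733.VR
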