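import Mathlib
import Pool.Agent.Y733.VR.Tower

set_option autoImplicit false

/-!
The family of fields.
-/

namespace Pool.Agent.Y733.VR

open NumberField Module IntermediateField Polynomial Height

lemma hh_sqrt2 (K : Type) [Field K] [NumberField K] (σ : K →+* ℂ) (s : K)
    (hs2 : s ^ 2 = 2) (hσ : σ s = (Real.sqrt 2 : ℝ)) : 0 < hh (s - 1) := by
  have h1 : (s + 1) * (s - 1) = 1 := by ring_nf; rw [hs2]; norm_num
  have h2 : (s - 1)⁻¹ = s + 1 := inv_eq_of_mul_eq_one_left h1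
  rw [← hh_inv, h2]
  refine lt_of_lt_of_le ?_ (inf_le (s + 1))
  refine div_pos ?_ deg_pos
  set v : InfinitePlace K := InfinitePlace.mk σ with hv
  have hpos : 0 < (v.mult : ℝ) * Real.posLog (v (s + 1)) := by
    refine mul_pos (by exact_mod_cast v.mult_pos) ?_
    have e1 : v (s + 1) = Real.sqrt 2 + 1 := by
      rw [hv, InfinitePlace.apply, map_add, hσ, map_one]
      rw [show ((Real.sqrt 2 : ℝ) : ℂ) + 1 = ((Real.sqrt 2 + 1 : ℝ) : ℂ) by push_cast; rfl]
      rw [Complex.norm_real, Real.norm_of_nonneg (by positivity)]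
    rw [e1]
    have : (1 : ℝ) < Real.sqrt 2 + 1 := by
      have := Real.sqrt_pos.2 (two_pos (α := ℝ))
      linarith
    exact lt_of_lt_of_le (Real.log_pos this) (le_max_right _ _)
  exact lt_of_lt_of_le hpos (Finset.single_le_sum
    (f := fun w : InfinitePlace K => (w.mult : ℝ) * Real.posLog (w (s + 1)))
    (fun w _ => mul_nonneg (Nat.cast_nonneg _) Real.posLog_nonneg) (Finset.mem_univ v))

/-- the first step of the tower -/
theorem base (K : Type) [Field K] [NumberField K] (σ : K →+* ℂ) (s : K)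
    (hs2 : s ^ 2 = 2) (hσ : σ s = (Real.sqrt 2 : ℝ)) (m : ℕ) :
    ∃ (L : Type) (_ : Field L) (_ : NumberField L) (_ : Algebra K L) (τ : L →+* ℂ) (u : L) (r : ℝ),
      (∀ x, τ (algebraMap K L x) = σ x) ∧ Inv τ u r ∧ finrank K L ≤ 2 ∧
      ld L ≤ ld K + m * hh (s - 1) + 2 * Real.log 2 ∧
      m * hh (s - 1) - 2 * Real.log 2 ≤ hh (1 - u ^ 2) ∧
      1 - r ^ 2 ≤ (Real.sqrt 2 - 1) ^ m := by
  have hsq : (1 : ℝ) < Real.sqrt 2 := by
    rw [Real.lt_sqrt (by norm_num)]; norm_num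
  have hsq2 : Real.sqrt 2 ^ 2 = 2 := Real.sq_sqrt (by norm_num)
  have hsint : IsIntegral ℤ s := IsIntegral.of_pow (n := 2) two_pos (by
    rw [hs2]; exact_mod_cast isInt_nat (L := K) 2)
  have h1 : (s + 1) * (s - 1) = 1 := by ring_nf; rw [hs2]; norm_num
  set e : K := (s - 1) ^ m with he
  set t : ℝ := (Real.sqrt 2 - 1) ^ m with ht
  have ht0 : 0 < t := pow_pos (by linarith) m
  have hes : σ e = (t : ℝ) := by
    rw [he, ht, map_pow, map_sub, hσ, map_one]; push_cast; rfl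
  have hez : IsIntegral ℤ e := (hsint.sub isIntegral_one).pow m
  have he0 : e ≠ 0 := pow_ne_zero _ (right_ne_zero_of_mul (by rw [h1]; exact one_ne_zero))
  have heinv : e⁻¹ = (s + 1) ^ m := by
    have : (s + 1) ^ m * e = 1 := by rw [he, ← mul_pow, h1, one_pow]
    exact inv_eq_of_mul_eq_one_left this
  have hezi : IsIntegral ℤ e⁻¹ := by
    rw [heinv]; exact (hsint.add isIntegral_one).pow m
  -- the extension
  have hz : ((Real.sqrt (t ^ 2 + 4) : ℝ) : ℂ) ^ 2 = σ (e ^ 2 + 4) := by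
    rw [map_add, map_pow, hes, map_ofNat, ← Complex.ofReal_pow, Real.sq_sqrt (by positivity)]
    push_cast
    rfl
  obtain ⟨L, jF, jN, jA, τ, b, g1, g2, g3, g4, g5⟩ := ext_sqrt K σ (e ^ 2 + 4) _ hz
  set E : L := algebraMap K L e with hE
  have hE0 : E ≠ 0 := by rwa [hE, Ne, FaithfulSMul.algebraMap_eq_zero_iff]
  have hb : b ^ 2 = E ^ 2 + 4 := by rw [g3, map_add, map_pow, map_ofNat]
  set u : L := (b - E) / 2 with hu
  have hub : b = 2 * u + E := by rw [hu]; ring
  have hueq : u ^ 2 + E * u - 1 = 0 := by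
    have : 4 * (u ^ 2 + E * u - 1) = b ^ 2 - (E ^ 2 + 4) := by rw [hub]; ring
    rw [hb, sub_self] at this
    exact (mul_eq_zero.1 this).resolve_left (by norm_num)
  have hEint : IsIntegral ℤ E := isIntegral_map _ hez
  have hEinv : IsIntegral ℤ E⁻¹ := by
    have := isIntegral_map (algebraMap K L) hezi
    rwa [map_inv₀] at this
  have huint : IsIntegral ℤ u := by
    have hbint : IsIntegral ℤ b := IsIntegral.of_pow (n := 2) two_pos (by
      rw [hb]; exact (hEint.pow 2).add (by exact_mod_cast isInt_nat (L := L) 4))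
    have : IsIntegral (integralClosure ℤ L) u := by
      refine ⟨X ^ 2 + (C ⟨E, hEint⟩ * X - C 1), ?_, ?_⟩
      · refine monic_X_pow_add ?_
        refine lt_of_le_of_lt (degree_sub_le _ _) (max_lt ?_ ?_)
        · refine lt_of_le_of_lt (degree_C_mul_X_le _) (by norm_num)
        · refine lt_of_le_of_lt degree_C_le (by norm_num)
      · rw [eval₂_add, eval₂_pow, eval₂_X, eval₂_sub, eval₂_mul, eval₂_C, eval₂_X, eval₂_C, map_one]
        have : algebraMap (integralClosure ℤ L) L ⟨E, hEint⟩ = E := rfl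
        rw [this]
        linear_combination hueq
    exact isIntegral_trans _ this
  have hu0 : u ≠ 0 := by
    intro h0
    rw [h0] at hueq
    norm_num at hueq
  have huinv : u⁻¹ = u + E := by
    field_simp
    linear_combination -hueq
  have huinvint : IsIntegral ℤ u⁻¹ := by rw [huinv]; exact huint.add hEint
  have hlam : 1 - u ^ 2 = E * u := by linear_combination -hueq
  have hlam0 : E * u ≠ 0 := mul_ne_zero hE0 hu0
  have hprod : (1 + u) * (1 - u) = E * u := by rw [← hlam]; ring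
  have hp0 : 1 + u ≠ 0 := left_ne_zero_of_mul (hprod ▸ hlam0)
  have hm0 : 1 - u ≠ 0 := right_ne_zero_of_mul (hprod ▸ hlam0)
  set r : ℝ := (Real.sqrt (t ^ 2 + 4) - t) / 2 with hr
  have hq2 : Real.sqrt (t ^ 2 + 4) ^ 2 = t ^ 2 + 4 := Real.sq_sqrt (by positivity)
  have hq0 : 0 ≤ Real.sqrt (t ^ 2 + 4) := Real.sqrt_nonneg _
  have hqt : t < Real.sqrt (t ^ 2 + 4) := by
    rw [Real.lt_sqrt ht0.le]; linarith
  have hqt2 : Real.sqrt (t ^ 2 + 4) < t + 2 := by
    rw [Real.sqrt_lt' (by linarith)]; nlinarith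
  have hr0 : 0 < r := by rw [hr]; linarith
  have hr1 : r < 1 := by rw [hr]; linarith
  have hrel : 1 - r ^ 2 = t * r := by rw [hr]; nlinarith
  have hInv : Inv τ u r :=
    { int := huint
      int4 := by
        rw [div_eq_mul_inv]
        exact IsIntegral.mul (by exact_mod_cast isInt_nat (L := L) 4) huinvint
      hp := by
        have : (1 + u)⁻¹ = (1 - u) * (E⁻¹ * u⁻¹) := by
          have h2 : (1 + u)⁻¹ = (1 - u) * (E * u)⁻¹ := by rw [← hprod]; field_simp
          rw [h2, mul_inv]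
        rw [this]
        exact ((isIntegral_one).sub huint).mul (hEinv.mul huinvint)
      hm := by
        have : (1 - u)⁻¹ = (1 + u) * (E⁻¹ * u⁻¹) := by
          have h2 : (1 - u)⁻¹ = (1 + u) * (E * u)⁻¹ := by rw [← hprod]; field_simp
          rw [h2, mul_inv]
        rw [this]
        exact ((isIntegral_one).add huint).mul (hEinv.mul huinvint)
      real := by
        rw [hu, map_div₀, map_sub, g2, hE, g1, hes, map_ofNat, hr]
        push_cast
        rfl
      pos := hr0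
      lt := hr1 }
  have hhE : hh E = m * hh (s - 1) := by
    rw [hE, hh_ext, he, hh_pow]
  refine ⟨L, jF, jN, jA, τ, u, r, g1, hInv, g5, ?_, ?_, ?_⟩
  · -- the discriminant
    set β : 𝓞 L := ⟨u, huint⟩ with hβ
    set a : 𝓞 K := ⟨e, hez⟩ with ha
    have htop : K⟮(β : L)⟯ = ⊤ := by
      rw [← top_le_iff, ← g4, adjoin_simple_le_iff]
      have h5 : b = 2 * (β : L) + algebraMap K L e := hub
      rw [h5]
      refine add_mem (mul_mem ?_ (mem_adjoin_simple_self K _)) (IntermediateField.algebraMap_mem _ _)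
      exact_mod_cast IntermediateField.natCast_mem (K⟮(β : L)⟯) 2
    have hroot : aeval β (X ^ 2 + (C a * X - C 1) : (𝓞 K)[X]) = 0 := by
      apply RingOfIntegers.coe_injective
      rw [map_add, map_pow, aeval_X, map_sub, map_mul, aeval_X, aeval_C, aeval_C, map_zero]
      rw [map_one, map_add, map_sub, map_pow, map_mul, map_one]
      have h6 : algebraMap (𝓞 L) L (algebraMap (𝓞 K) (𝓞 L) a) = E := rfl
      have h7 : algebraMap (𝓞 L) L β = u := rfl
      rw [h6, h7]
      linear_combination hueq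
    have hder : ((aeval β (derivative (X ^ 2 + (C a * X - C 1) : (𝓞 K)[X])) : 𝓞 L) : L) = b := by
      have h6 : algebraMap (𝓞 L) L (algebraMap (𝓞 K) (𝓞 L) a) = E := rfl
      have h7 : algebraMap (𝓞 L) L β = u := rfl
      have h8 : (derivative (X ^ 2 + (C a * X - C 1) : (𝓞 K)[X])) = 2 * X + C a := by
        simp
        norm_num
      have h9 : aeval β (2 * X + C a : (𝓞 K)[X]) = 2 * β + algebraMap (𝓞 K) (𝓞 L) a := by
        have h10 : aeval β (2 : (𝓞 K)[X]) = 2 := map_ofNat (aeval β) 2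
        rw [map_add, map_mul, aeval_X, aeval_C, h10]
      rw [h8, h9, hub]
      push_cast
      rfl
    have hb0 : b ≠ 0 := by
      intro h0
      have h9 := g2
      rw [h0, map_zero] at h9
      have : Real.sqrt (t ^ 2 + 4) = 0 := by exact_mod_cast h9.symm
      linarith
    have h := ld_le K L β htop _ hroot (by
      intro h0
      apply hb0
      rw [← hder, h0]
      rfl)
    rw [hder] at h
    have h10 := log_norm_le b hb0
    have h11 : 2 * hh b ≤ 2 * hh E + 3 * Real.log 2 := by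
      have a1 := hh_add_le (E ^ 2) 4
      rw [← hb, hh_pow, hh_pow] at a1
      have a2 : hh (4 : L) = 2 * Real.log 2 := by
        have := hh_natCast (K := L) 4
        have h3 : Real.log ((4 : ℕ) : ℝ) = 2 * Real.log 2 := by
          rw [show ((4 : ℕ) : ℝ) = 2 ^ 2 by norm_num, Real.log_pow]; push_cast; rfl
        rw [h3] at this
        exact_mod_cast this
      rw [a2] at a1
      push_cast at a1
      linarith
    have h12 : 0 ≤ Real.log 2 := Real.log_nonneg (by norm_num)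
    linarith
  · have a1 := hh_sub_le u⁻¹ u
    have a2 : u⁻¹ - u = E := by rw [huinv]; ring
    rw [a2, hh_inv, hhE] at a1
    have a3 := hh_sub_le 1 (1 - u ^ 2)
    rw [hh_one, sub_sub_cancel, hh_pow] at a3
    push_cast at a3
    linarith
  · rw [hrel]
    nlinarith

/-- the family -/
theorem fam (k : Type) [Field k] [NumberField k] (σ : k →+* ℂ) (j : ℕ) :
    ∃ c B : ℝ, 0 < c ∧ ∀ m : ℕ, ∃ (L : Type) (_ : Field L) (_ : NumberField L) (_ : Algebra k L)
      (τ : L →+* ℂ) (u : ℕ → L) (r : ℕ → ℝ),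
      (∀ x, τ (algebraMap k L x) = σ x) ∧ finrank k L ≤ 2 ^ (j + 2) ∧
      ld L ≤ ld k + c * m + B ∧ 0 < 1 - r 0 ^ 2 ∧ 1 - r 0 ^ 2 ≤ (Real.sqrt 2 - 1) ^ m ∧
      ∀ i ≤ j, Inv τ (u i) (r i) ∧ c * m - B ≤ hh (1 - u i ^ 2) ∧
        ((1 - r 0 ^ 2) / 16) ^ 2 ^ i ≤ 1 - r i ^ 2 ∧ 1 - r i ^ 2 ≤ (1 - r 0 ^ 2) ^ 2 ^ i := by
  have hlog : 0 ≤ Real.log 2 := Real.log_nonneg (by norm_num)
  have h22 : ((Real.sqrt 2 : ℝ) : ℂ) ^ 2 = σ 2 := by
    rw [← Complex.ofReal_pow, Real.sq_sqrt (by norm_num), map_ofNat]; push_cast; rfl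
  obtain ⟨K, iF, iN, iA, σ₁, s, f1, f2, f3, f4, f5⟩ := ext_sqrt k σ 2 _ h22
  have hs2 : s ^ 2 = 2 := by rw [f3, map_ofNat]
  have hldK : ld K ≤ ld k + 2 * Real.log 2 :=
    ld_sqrt (L := k) (M := K) two_ne_zero (by exact_mod_cast isInt_nat (L := k) 2)
      (by
        have : (4 : k) / 2 = ((2 : ℕ) : k) := by norm_num
        rw [this]
        exact isInt_nat 2) f3 f4
  refine ⟨hh (s - 1), (2 * j + 4) * Real.log 2 + 7 * j * Real.log 2,
    hh_sqrt2 K σ₁ s hs2 f2, fun m => ?_⟩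
  obtain ⟨L₀, jF, jN, jA, τ₀, u₀, r₀, g1, g2, g3, g4, g5, g6⟩ := base K σ₁ s hs2 f2 m
  obtain ⟨L, kF, kN, kA, τ, u, r, h1, h2, h3, h4, h5, h6, h7⟩ := tower j L₀ τ₀ u₀ r₀ g2
  let _ : Algebra k L₀ := ((algebraMap K L₀).comp (algebraMap k K)).toAlgebra
  have hst0 : IsScalarTower k K L₀ := IsScalarTower.of_algebraMap_eq (fun x => rfl)
  let _ : Algebra k L := ((algebraMap L₀ L).comp (algebraMap k L₀)).toAlgebra
  have hst : IsScalarTower k L₀ L := IsScalarTower.of_algebraMap_eq (fun x => rfl)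
  have h0 := h4 0 (Nat.zero_le j)
  have hy0 : 0 < 1 - r 0 ^ 2 := by
    have := h0.pos
    have := h0.lt
    nlinarith
  have hu0 : hh (1 - u 0 ^ 2) = hh (1 - u₀ ^ 2) := by
    rw [h2, ← hh_ext L (1 - u₀ ^ 2), map_sub, map_one, map_pow]
  have hseq : ∀ i ≤ j, hh (1 - u 0 ^ 2) ≤ hh (1 - u i ^ 2) + i * (7 * Real.log 2) ∧
      16 * ((1 - r 0 ^ 2) / 16) ^ 2 ^ i ≤ 1 - r i ^ 2 ∧ 1 - r i ^ 2 ≤ (1 - r 0 ^ 2) ^ 2 ^ i := by
    intro i
    induction i with
    | zero =>
      intro _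
      refine ⟨by simp, ?_, by simp⟩
      rw [pow_zero, pow_one]
      linarith
    | succ i ih =>
      intro hi
      obtain ⟨a1, a2, a3⟩ := ih (by omega)
      obtain ⟨b1, b2, b3⟩ := h5 i (by omega)
      have hyi : 0 ≤ 1 - r i ^ 2 := by
        have := (h4 i (by omega)).pos
        have := (h4 i (by omega)).lt
        nlinarith
      refine ⟨?_, ?_, ?_⟩
      · push_cast
        linarith
      · have hp : 0 ≤ ((1 - r 0 ^ 2) / 16) ^ 2 ^ i := by positivity
        refine le_trans ?_ b2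
        have e2 : (2 : ℕ) ^ (i + 1) = 2 ^ i * 2 := pow_succ 2 i
        rw [e2, pow_mul]
        nlinarith [mul_self_nonneg (1 - r i ^ 2 - 16 * ((1 - r 0 ^ 2) / 16) ^ 2 ^ i)]
      · refine b3.trans ?_
        have e2 : (2 : ℕ) ^ (i + 1) = 2 ^ i * 2 := pow_succ 2 i
        rw [e2, pow_mul]
        exact pow_le_pow_left₀ hyi a3 2
  refine ⟨L, kF, kN, inferInstance, τ, u, r, ?_, ?_, ?_, hy0, ?_, ?_⟩
  · intro x
    rw [← f1 x, ← g1 (algebraMap k K x), ← h1]
    rfl
  · rw [← finrank_mul_finrank k L₀ L, ← finrank_mul_finrank k K L₀]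
    calc finrank k K * finrank K L₀ * finrank L₀ L ≤ 2 * 2 * 2 ^ j :=
          Nat.mul_le_mul (Nat.mul_le_mul f5 g3) h6
      _ = 2 ^ (j + 2) := by rw [pow_add]; ring
  · have : 0 ≤ (j : ℝ) * Real.log 2 := by positivity
    nlinarith
  · rw [h3]
    exact g6
  · intro i hi
    obtain ⟨a1, a2, a3⟩ := hseq i hi
    refine ⟨h4 i hi, ?_, ?_, a3⟩
    · have hij : (i : ℝ) ≤ j := by exact_mod_cast hi
      rw [hu0] at a1
      have : 0 ≤ (j : ℝ) * Real.log 2 := by positivity
      nlinarith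
    · have hp : 0 ≤ ((1 - r 0 ^ 2) / 16) ^ 2 ^ i := by positivity
      linarith

end Pool.Agent.Y733.VR
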