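import Mathlib

set_option autoImplicit false

/-!
Nonvanishing of a polynomial at a point with very small coordinates of very different sizes.
-/

namespace Pool.Agent.Y733.VR

open MvPolynomial

/-- digits are determined by the number -/
lemma digits_inj {m B : ℕ} (f g : Fin m → ℕ) (hf : ∀ i, f i < B) (hg : ∀ i, g i < B)
    (h : ∑ i, f i * B ^ (i : ℕ) = ∑ i, g i * B ^ (i : ℕ)) : f = g := by
  have h1 := finFunctionFinEquiv_apply (m := B) (n := m) (fun i => ⟨f i, hf i⟩)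
  have h2 := finFunctionFinEquiv_apply (m := B) (n := m) (fun i => ⟨g i, hg i⟩)
  have h3 : (finFunctionFinEquiv (fun i => (⟨f i, hf i⟩ : Fin B)) : Fin (B ^ m)) =
      finFunctionFinEquiv (fun i => (⟨g i, hg i⟩ : Fin B)) := by
    apply Fin.ext
    rw [h1, h2]
    exact h
  have h4 := finFunctionFinEquiv.injective h3
  funext i
  have := congrFun h4 i
  exact congrArg Fin.val this

theorem nonvan (m J : ℕ) (P : MvPolynomial (Fin m) ℂ) (hP : P ≠ 0)
    (hdeg : ∀ i, P.degreeOf i < 2 ^ J) :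
    ∃ δ : ℝ, 0 < δ ∧ ∀ (t : ℝ) (y : Fin m → ℝ), 0 < t → t < δ →
      (∀ i : Fin m, (t / 16) ^ 2 ^ ((i : ℕ) * J) ≤ y i ∧ y i ≤ t ^ 2 ^ ((i : ℕ) * J)) →
      eval (fun i => (y i : ℂ)) P ≠ 0 := by
  classical
  set E : (Fin m →₀ ℕ) → ℕ := fun a => ∑ i, a i * (2 ^ J) ^ (i : ℕ) with hE
  have hbd : ∀ a ∈ P.support, ∀ i, a i < 2 ^ J := by
    intro a ha i
    exact lt_of_le_of_lt (monomial_le_degreeOf i ha) (hdeg i)
  have hinj : ∀ a ∈ P.support, ∀ b ∈ P.support, E a = E b → a = b := by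
    intro a ha b hb hab
    have := digits_inj (fun i => a i) (fun i => b i) (hbd a ha) (hbd b hb) hab
    exact Finsupp.ext fun i => congrFun this i
  obtain ⟨a, ha, hmin⟩ := P.support.exists_min_image E
    (Finset.nonempty_iff_ne_empty.2 (by rwa [Ne, support_eq_empty]))
  have hca : 0 < ‖P.coeff a‖ := norm_pos_iff.2 (mem_support_iff.1 ha)
  set W : ℝ := ∑ b ∈ P.support.erase a, ‖P.coeff b‖ with hW
  have hW0 : 0 ≤ W := Finset.sum_nonneg fun _ _ => norm_nonneg _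
  refine ⟨min 1 (‖P.coeff a‖ / (16 ^ E a * (W + 1))), lt_min one_pos (by positivity), ?_⟩
  intro t y ht0 htδ hy
  have ht1 : t < 1 := htδ.trans_le (min_le_left _ _)
  have ht2 : t < ‖P.coeff a‖ / (16 ^ E a * (W + 1)) := htδ.trans_le (min_le_right _ _)
  have hy0 : ∀ i, 0 < y i := fun i => lt_of_lt_of_le (by positivity) (hy i).1
  -- the monomials
  have hmon : ∀ b : Fin m →₀ ℕ, (t / 16) ^ E b ≤ ∏ i, y i ^ b i ∧ ∏ i, y i ^ b i ≤ t ^ E b := by
    intro b
    have e1 : ∀ s : ℝ, s ^ E b = ∏ i : Fin m, (s ^ 2 ^ ((i : ℕ) * J)) ^ b i := by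
      intro s
      rw [hE, ← Finset.prod_pow_eq_pow_sum]
      refine Finset.prod_congr rfl fun i _ => ?_
      have e3 : ((2 : ℕ) ^ J) ^ (i : ℕ) = 2 ^ ((i : ℕ) * J) := by
        rw [← pow_mul, mul_comm J (i : ℕ)]
      rw [e3, mul_comm (b i), pow_mul]
    rw [e1, e1]
    refine ⟨Finset.prod_le_prod (fun i _ => by positivity) fun i _ =>
      pow_le_pow_left₀ (by positivity) (hy i).1 _, Finset.prod_le_prod (fun i _ =>
        pow_nonneg (hy0 i).le _) fun i _ => pow_le_pow_left₀ (hy0 i).le (hy i).2 _⟩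
  have hterm : ∀ b : Fin m →₀ ℕ, ‖P.coeff b * ∏ i, (y i : ℂ) ^ b i‖ =
      ‖P.coeff b‖ * ∏ i, y i ^ b i := by
    intro b
    rw [norm_mul, norm_prod]
    congr 1
    refine Finset.prod_congr rfl fun i _ => ?_
    rw [norm_pow, Complex.norm_real, Real.norm_of_nonneg (hy0 i).le]
  intro h0
  rw [eval_eq', ← Finset.add_sum_erase _ _ ha] at h0
  have h1 : ‖P.coeff a * ∏ i, (y i : ℂ) ^ a i‖ ≤
      ∑ b ∈ P.support.erase a, ‖P.coeff b * ∏ i, (y i : ℂ) ^ b i‖ := by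
    rw [add_eq_zero_iff_eq_neg] at h0
    rw [h0, norm_neg]
    exact norm_sum_le _ _
  have h2 : ∑ b ∈ P.support.erase a, ‖P.coeff b * ∏ i, (y i : ℂ) ^ b i‖ ≤ W * t ^ (E a + 1) := by
    rw [hW, Finset.sum_mul]
    refine Finset.sum_le_sum fun b hb => ?_
    rw [hterm]
    refine mul_le_mul_of_nonneg_left ?_ (norm_nonneg _)
    refine (hmon b).2.trans (pow_le_pow_of_le_one ht0.le ht1.le ?_)
    have hb' := Finset.mem_of_mem_erase hb
    have hne : E a ≠ E b := fun h => Finset.ne_of_mem_erase hb (hinj a ha b hb' h).symm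
    have := hmin b hb'
    omega
  have h3 : ‖P.coeff a‖ * (t / 16) ^ E a ≤ ‖P.coeff a * ∏ i, (y i : ℂ) ^ a i‖ := by
    rw [hterm]
    exact mul_le_mul_of_nonneg_left (hmon a).1 (norm_nonneg _)
  have h4 := (h3.trans h1).trans h2
  rw [div_pow, pow_succ] at h4
  have h5 : 0 < t ^ E a := by positivity
  have h6 : ‖P.coeff a‖ * (t ^ E a / 16 ^ E a) = t ^ E a * (‖P.coeff a‖ / 16 ^ E a) := by ring
  have h7 : W * (t ^ E a * t) = t ^ E a * (W * t) := by ring
  rw [h6, h7] at h4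
  have h8 := le_of_mul_le_mul_left h4 h5
  rw [lt_div_iff₀ (by positivity)] at ht2
  rw [div_le_iff₀ (by positivity)] at h8
  have h9 : 0 < t * 16 ^ E a := by positivity
  nlinarith

end Pool.Agent.Y733.VR
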