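import Mathlib

set_option autoImplicit false

/-!
Specialising some of the variables of a polynomial.
-/

namespace Pool.Agent.Y733.VR

open MvPolynomial

variable {k : Type} [Field k]

/-- specialise the variables outside `I` -/
noncomputable def spec {n : ℕ} (I : Finset (Fin n)) (b : Fin n → k) (G : MvPolynomial (Fin n) k) :
    MvPolynomial (Fin I.card) k :=
  aeval (fun i => if h : i ∈ I then (X (I.equivFin ⟨i, h⟩) : MvPolynomial (Fin I.card) k)
    else C (b i)) G

lemma exists_point [Infinite k] {n : ℕ} (G : MvPolynomial (Fin n) k) (hG : G ≠ 0) :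
    ∃ b : Fin n → k, eval b G ≠ 0 ∧ ∀ i, b i ≠ 0 ∧ b i ≠ 1 := by
  by_contra hc
  push Not at hc
  have h0 : G * ∏ i, (X i * (X i - 1)) = 0 := by
    refine MvPolynomial.funext fun b => ?_
    rw [map_zero]
    by_contra hb
    rw [map_mul, map_prod] at hb
    have h1 := left_ne_zero_of_mul hb
    have h2 := right_ne_zero_of_mul hb
    obtain ⟨i, hi⟩ := hc b h1
    rw [Finset.prod_ne_zero_iff] at h2
    have h3 := h2 i (Finset.mem_univ i)
    rw [map_mul, map_sub, eval_X, map_one] at h3
    exact right_ne_zero_of_mul h3 (by rw [hi (left_ne_zero_of_mul h3), sub_self])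
  rcases mul_eq_zero.1 h0 with h1 | h1
  · exact hG h1
  · rw [Finset.prod_eq_zero_iff] at h1
    obtain ⟨i, -, hi⟩ := h1
    rcases mul_eq_zero.1 hi with h2 | h2
    · exact X_ne_zero i h2
    · have h3 := congrArg (eval (fun _ : Fin n => (0 : k))) h2
      rw [map_sub, eval_X, map_one, map_zero, zero_sub] at h3
      exact one_ne_zero (neg_eq_zero.1 h3)

lemma spec_ne_zero {n : ℕ} (I : Finset (Fin n)) (b : Fin n → k) (G : MvPolynomial (Fin n) k)
    (hb : eval b G ≠ 0) : spec I b G ≠ 0 := by
  intro h
  apply hb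
  have h1 : (eval (fun a => b (I.equivFin.symm a))).comp (aeval (fun i => if h : i ∈ I then
      (X (I.equivFin ⟨i, h⟩) : MvPolynomial (Fin I.card) k) else C (b i))).toRingHom = eval b := by
    refine MvPolynomial.ringHom_ext (fun a => ?_) fun i => ?_
    · simp
    · simp only [AlgHom.toRingHom_eq_coe, RingHom.coe_comp, RingHom.coe_coe, Function.comp_apply,
        aeval_X, eval_X]
      split_ifs with hi
      · simp
      · simp
  have h2 := congrArg (fun f => f G) h1
  simp only [RingHom.coe_comp, Function.comp_apply] at h2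
  rw [← h2]
  have h3 : (aeval (fun i => if h : i ∈ I then
      (X (I.equivFin ⟨i, h⟩) : MvPolynomial (Fin I.card) k) else C (b i))).toRingHom G = 0 := h
  rw [h3, map_zero]

lemma degreeOf_spec_le {n : ℕ} (I : Finset (Fin n)) (b : Fin n → k) (G : MvPolynomial (Fin n) k)
    (a : Fin I.card) : (spec I b G).degreeOf a ≤ G.degreeOf (I.equivFin.symm a : Fin n) := by
  unfold spec
  rw [aeval_def, eval₂_eq']
  refine (degreeOf_sum_le _ _ _).trans (Finset.sup_le fun s hs => ?_)
  rw [algebraMap_eq]
  refine (degreeOf_C_mul_le _ _ _).trans ?_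
  refine (degreeOf_prod_le _ _ _).trans ?_
  have h1 : ∀ i ∈ (Finset.univ : Finset (Fin n)),
      degreeOf a ((if h : i ∈ I then (X (I.equivFin ⟨i, h⟩) : MvPolynomial (Fin I.card) k)
        else C (b i)) ^ s i) ≤ if i = (I.equivFin.symm a : Fin n) then s i else 0 := by
    intro i _
    refine (degreeOf_pow_le _ _ _).trans ?_
    by_cases hi : i ∈ I
    · rw [dif_pos hi, degreeOf_X]
      by_cases h2 : a = I.equivFin ⟨i, hi⟩
      · rw [if_pos h2, mul_one, h2]
        simp
      · rw [if_neg h2, mul_zero]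
        exact Nat.zero_le _
    · rw [dif_neg hi, degreeOf_C, mul_zero]
      exact Nat.zero_le _
  refine (Finset.sum_le_sum h1).trans ?_
  rw [Finset.sum_ite_eq' Finset.univ (I.equivFin.symm a : Fin n) fun i => s i,
    if_pos (Finset.mem_univ _)]
  exact monomial_le_degreeOf _ hs

end Pool.Agent.Y733.VR
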