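import Mathlib
import Pool.Agent.Y733.VR.Ht

set_option autoImplicit false

/-!
The proximity of units `y` such that `1 - y` divides `16` to the points `0, 1, ∞`.
-/

namespace Pool.Agent.Y733.VR

open NumberField Module Height Real

/-- the local Weil function of `0 + 1 + ∞` -/
noncomputable def wl {F : Type} [Field F] (a : F → ℝ) (y : F) : ℝ :=
  posLog (a y) + posLog (a y)⁻¹ + posLog (a (y - 1))⁻¹

lemma wl_nonneg {F : Type} [Field F] (a : F → ℝ) (y : F) : 0 ≤ wl a y :=
  add_nonneg (add_nonneg posLog_nonneg posLog_nonneg) posLog_nonneg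

section
variable {F : Type} [Field F] [NumberField F]

lemma sum_mult : ∑ v : InfinitePlace F, (v.mult : ℝ) = finrank ℚ F := by
  exact_mod_cast InfinitePlace.sum_mult_eq

theorem wl_lower (y : F) (h1 : IsIntegral ℤ y) (h2 : IsIntegral ℤ y⁻¹)
    (h3 : IsIntegral ℤ (16 * (y - 1)⁻¹)) :
    3 * hh y - 9 * Real.log 2 ≤
      (∑ v : InfinitePlace F, (v.mult : ℝ) * wl v y) / finrank ℚ F := by
  have e1 := inf_eq y h1
  have e2 := inf_eq y⁻¹ h2
  have e3 := inf_eq _ h3
  rw [hh_inv] at e2
  have h16 : hh (16 : F) = 4 * Real.log 2 := by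
    have := hh_natCast (K := F) 16
    have h3 : Real.log ((16 : ℕ) : ℝ) = 4 * Real.log 2 := by
      rw [show ((16 : ℕ) : ℝ) = 2 ^ 4 by norm_num, Real.log_pow]; push_cast; rfl
    rw [h3] at this
    exact_mod_cast this
  have h5 : hh y ≤ hh (16 * (y - 1)⁻¹) + 5 * Real.log 2 := by
    have a1 := hh_add_le (y - 1) 1
    rw [sub_add_cancel, hh_one] at a1
    have a2 := hh_div_le (16 * (y - 1)⁻¹) 16
    have a3 : 16 * (y - 1)⁻¹ / 16 = (y - 1)⁻¹ := by field_simp
    rw [a3, hh_inv, h16] at a2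
    linarith
  have h6 : hh (16 * (y - 1)⁻¹) ≤
      (∑ v : InfinitePlace F, (v.mult : ℝ) * posLog (v (y - 1))⁻¹) / finrank ℚ F +
        4 * Real.log 2 := by
    rw [← e3, div_add' _ _ _ deg_pos.ne', ← sum_mult, Finset.mul_sum, ← Finset.sum_add_distrib]
    refine div_le_div_of_nonneg_right (Finset.sum_le_sum fun v _ => ?_)
      (Finset.sum_nonneg fun v _ => Nat.cast_nonneg _)
    rw [mul_comm (4 * Real.log 2), ← mul_add]
    refine mul_le_mul_of_nonneg_left ?_ (Nat.cast_nonneg _)
    rw [map_mul, map_inv₀]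
    refine posLog_mul.trans ?_
    have : posLog (v (16 : F)) = 4 * Real.log 2 := by
      have h7 : v (16 : F) = 16 := by
        rw [← InfinitePlace.norm_embedding_eq, map_ofNat]
        norm_num
      rw [h7, posLog_eq_log (by norm_num), show (16 : ℝ) = 2 ^ 4 by norm_num, Real.log_pow]
      push_cast
      rfl
    rw [this]
    linarith
  have h7 : (∑ v : InfinitePlace F, (v.mult : ℝ) * wl v y) / finrank ℚ F =
      hh y + hh y + (∑ v : InfinitePlace F, (v.mult : ℝ) * posLog (v (y - 1))⁻¹) /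
        finrank ℚ F := by
    nth_rw 1 [← e1]
    rw [← e2, ← add_div, ← add_div, ← Finset.sum_add_distrib, ← Finset.sum_add_distrib]
    congr 1
    refine Finset.sum_congr rfl fun v _ => ?_
    unfold wl
    rw [map_inv₀]
    ring
  rw [h7]
  linarith

end

end Pool.Agent.Y733.VR
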