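import Mathlib
import Pool.Agent.Y733.VR.Fam
import Pool.Agent.Y733.VR.NonVan
import Pool.Agent.Y733.VR.Weil
import Pool.Agent.Y733.VR.Subst

set_option autoImplicit false

/-!
Points of bounded degree on `(ℙ¹)^n`, outside a given hypersurface.
-/

namespace Pool.Agent.Y733.VR

open NumberField Module Height Real IsDedekindDomain

theorem points (k : Type) [Field k] [NumberField k] {n : ℕ} (I : Finset (Fin n)) (J : ℕ)
    (G : MvPolynomial (Fin n) k) (hG : G ≠ 0) (hdeg : ∀ i ∈ I, G.degreeOf i < 2 ^ J) :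
    ∃ c B : ℝ, 0 < c ∧ ∀ T : ℝ, ∃ M : ℕ, T ≤ M ∧
      ∃ (F : Type) (_ : Field F) (_ : NumberField F) (_ : Algebra k F) (x : Fin n → F),
        finrank k F ≤ 2 ^ ((I.card - 1) * J + 2) ∧
        IntermediateField.adjoin k (Set.range x) = ⊤ ∧ (∀ i, x i ≠ 0 ∧ x i ≠ 1) ∧
        MvPolynomial.aeval x G ≠ 0 ∧ ld F ≤ ld k + c * M + B ∧
        (∀ i ∈ I, c * M - B ≤ hh (x i) ∧ IsIntegral ℤ (x i) ∧ IsIntegral ℤ (x i)⁻¹ ∧
          IsIntegral ℤ (16 * (x i - 1)⁻¹)) ∧ ∀ i, i ∉ I → hh (x i) ≤ B := by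
  classical
  obtain ⟨b, hbG, hb⟩ := exists_point G hG
  set m := I.card with hm
  set e := I.equivFin with he
  obtain ⟨σ⟩ : Nonempty (k →+* ℂ) := inferInstance
  set P : MvPolynomial (Fin I.card) ℂ := MvPolynomial.map σ (spec I b G) with hP
  have hP0 : P ≠ 0 := by
    intro h
    refine spec_ne_zero I b G hbG (MvPolynomial.map_injective σ σ.injective ?_)
    rw [map_zero]
    exact h
  have hPd : ∀ i, P.degreeOf i < 2 ^ J := by
    intro i
    refine lt_of_le_of_lt ?_ (hdeg _ (e.symm i).2)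
    refine le_trans ?_ (degreeOf_spec_le I b G i)
    rw [hP, MvPolynomial.degreeOf_le_iff]
    intro s hs
    exact MvPolynomial.monomial_le_degreeOf _ (MvPolynomial.support_map_subset _ _ hs)
  obtain ⟨δ, hδ, hnv⟩ := nonvan I.card J P hP0 hPd
  obtain ⟨c, B, hc, hfam⟩ := fam k σ ((I.card - 1) * J)
  set B' : ℝ := |B| + ∑ i, hh (b i) with hB'
  have hBB : B ≤ B' := by
    have : 0 ≤ ∑ i, hh (b i) := Finset.sum_nonneg fun i _ => hh_nonneg _
    have := le_abs_self B
    linarith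
  refine ⟨c, B', hc, fun T => ?_⟩
  have hs2 : Real.sqrt 2 - 1 < 1 := by
    have : Real.sqrt 2 < 2 := by
      rw [Real.sqrt_lt' (by norm_num)]; norm_num
    linarith
  have hs1 : 0 < Real.sqrt 2 - 1 := by
    have : 1 < Real.sqrt 2 := by
      rw [Real.lt_sqrt (by norm_num)]; norm_num
    linarith
  obtain ⟨M₁, hM₁⟩ := exists_pow_lt_of_lt_one hδ hs2
  obtain ⟨M₂, hM₂⟩ := exists_nat_ge T
  set M := max M₁ M₂ with hM
  have hMδ : (Real.sqrt 2 - 1) ^ M < δ :=
    (pow_le_pow_of_le_one hs1.le hs2.le (le_max_left _ _)).trans_lt hM₁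
  have hMT : T ≤ M := hM₂.trans (by exact_mod_cast le_max_right M₁ M₂)
  refine ⟨M, hMT, ?_⟩
  obtain ⟨L, iF, iN, iA, τ, u, r, hτ, hfin, hld, ht0, ht1, hu⟩ := hfam M
  set y : Fin n → L := fun i => if h : i ∈ I then 1 - u ((e ⟨i, h⟩ : ℕ) * J) ^ 2
    else algebraMap k L (b i) with hy
  let F := IntermediateField.adjoin k (Set.range y)
  have hxm : ∀ i, y i ∈ F := fun i => IntermediateField.subset_adjoin k _ ⟨i, rfl⟩
  set x : Fin n → F := fun i => ⟨y i, hxm i⟩ with hx
  have hle : ∀ i (h : i ∈ I), (e ⟨i, h⟩ : ℕ) * J ≤ (I.card - 1) * J := by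
    intro i h
    refine Nat.mul_le_mul_right J ?_
    have := (e ⟨i, h⟩).2
    omega
  have hyI : ∀ i (h : i ∈ I), y i = 1 - u ((e ⟨i, h⟩ : ℕ) * J) ^ 2 := fun i h => by
    rw [hy]; simp only [dif_pos h]
  have hyI' : ∀ i (h : i ∉ I), y i = algebraMap k L (b i) := fun i h => by
    rw [hy]; simp only [dif_neg h]
  have hal : ∀ i, algebraMap F L (x i) = y i := fun i => rfl
  have hint : ∀ z : F, IsIntegral ℤ (algebraMap F L z) → IsIntegral ℤ z := fun z hz =>
    (isIntegral_algebraMap_iff (algebraMap F L).injective).1 hz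
  refine ⟨F, inferInstance, inferInstance, inferInstance, x, ?_, ?_, ?_, ?_, ?_, ?_, ?_⟩
  · refine le_trans ?_ hfin
    have hfd : FiniteDimensional k L := inferInstance
    exact Nat.le_of_dvd finrank_pos (Dvd.intro (finrank F L) (finrank_mul_finrank k F L))
  · refine adjoin_self_top (Set.range y) (Set.range x) ?_
    rw [← Set.range_comp]
    rfl
  · intro i
    have h1 : y i ≠ 0 ∧ y i ≠ 1 := by
      by_cases h : i ∈ I
      · rw [hyI i h]
        obtain ⟨h1, -, -, -⟩ := hu _ (hle i h)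
        refine ⟨?_, ?_⟩
        · have : 1 - u ((e ⟨i, h⟩ : ℕ) * J) ^ 2 =
            (1 + u ((e ⟨i, h⟩ : ℕ) * J)) * (1 - u ((e ⟨i, h⟩ : ℕ) * J)) := by ring
          rw [this]
          exact mul_ne_zero h1.add_ne h1.sub_ne
        · intro h2
          have h3 : u ((e ⟨i, h⟩ : ℕ) * J) ^ 2 = 0 := by linear_combination -h2
          exact h1.ne_zero (pow_eq_zero_iff two_ne_zero |>.1 h3)
      · rw [hyI' i h]
        exact ⟨(map_ne_zero _).2 (hb i).1, fun h2 => (hb i).2 ((algebraMap k L).injective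
          (by rw [h2, map_one]))⟩
    refine ⟨fun h2 => h1.1 ?_, fun h2 => h1.2 ?_⟩
    · rw [← hal, h2, map_zero]
    · rw [← hal, h2, map_one]
  · intro h0
    have h1 := hnv (1 - r 0 ^ 2) (fun a => 1 - r ((a : ℕ) * J) ^ 2) ht0 (ht1.trans_lt hMδ) (by
      intro a
      have h2 := hu ((a : ℕ) * J) (Nat.mul_le_mul_right J (by have := a.2; omega))
      exact ⟨h2.2.2.1, h2.2.2.2⟩)
    apply h1
    have h3 : (MvPolynomial.eval (fun a : Fin I.card => ((1 - r ((a : ℕ) * J) ^ 2 : ℝ) : ℂ))).comp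
        ((MvPolynomial.map σ).comp (MvPolynomial.aeval (fun i => if h : i ∈ I then
          (MvPolynomial.X (I.equivFin ⟨i, h⟩) : MvPolynomial (Fin I.card) k)
          else MvPolynomial.C (b i))).toRingHom) =
        (τ.comp (algebraMap F L)).comp (MvPolynomial.aeval (R := k) x).toRingHom := by
      refine MvPolynomial.ringHom_ext (fun a => ?_) fun i => ?_
      · simp only [AlgHom.toRingHom_eq_coe, RingHom.coe_comp, RingHom.coe_coe,
          Function.comp_apply, MvPolynomial.algHom_C, MvPolynomial.algebraMap_eq,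
          MvPolynomial.map_C, MvPolynomial.eval_C]
        rw [← hτ]
        rfl
      · simp only [AlgHom.toRingHom_eq_coe, RingHom.coe_comp, RingHom.coe_coe,
          Function.comp_apply, MvPolynomial.aeval_X]
        rw [hal]
        by_cases hi : i ∈ I
        · rw [dif_pos hi, hyI i hi, MvPolynomial.map_X, MvPolynomial.eval_X, map_sub, map_one,
            map_pow, (hu _ (hle i hi)).1.real]
          push_cast
          rfl
        · rw [dif_neg hi, hyI' i hi, MvPolynomial.map_C, MvPolynomial.eval_C, hτ]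
    have h4 := congrArg (fun f => f G) h3
    simp only [RingHom.coe_comp, Function.comp_apply] at h4
    have h5 : (MvPolynomial.aeval (R := k) x).toRingHom G = 0 := h0
    rw [h5, map_zero, map_zero] at h4
    exact h4
  · have := ld_mono F L
    linarith
  · intro i hi
    obtain ⟨h1, h2, -, -⟩ := hu _ (hle i hi)
    refine ⟨?_, ?_, ?_, ?_⟩
    · rw [← hh_ext L (x i), hal, hyI i hi]
      linarith
    · apply hint
      rw [hal, hyI i hi]
      exact (isIntegral_one).sub (h1.int.pow 2)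
    · apply hint
      rw [map_inv₀, hal, hyI i hi]
      have : (1 - u ((e ⟨i, hi⟩ : ℕ) * J) ^ 2)⁻¹ =
        (1 + u ((e ⟨i, hi⟩ : ℕ) * J))⁻¹ * (1 - u ((e ⟨i, hi⟩ : ℕ) * J))⁻¹ := by
        rw [← mul_inv]
        congr 1
        ring
      rw [this]
      exact h1.hp.mul h1.hm
    · apply hint
      rw [map_mul, map_inv₀, map_sub, map_one, map_ofNat, hal, hyI i hi]
      have h3 := h1.ne_zero
      have : 16 * (1 - u ((e ⟨i, hi⟩ : ℕ) * J) ^ 2 - 1)⁻¹ =
        -(4 / u ((e ⟨i, hi⟩ : ℕ) * J)) ^ 2 := by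
        have h4 : (1 - u ((e ⟨i, hi⟩ : ℕ) * J) ^ 2 - 1) = -(u ((e ⟨i, hi⟩ : ℕ) * J) ^ 2) := by ring
        rw [h4, inv_neg, div_pow]
        field_simp
        norm_num
      rw [this]
      exact (h1.int4.pow 2).neg
  · intro i hi
    rw [← hh_ext L (x i), hal, hyI' i hi, hh_ext]
    have h1 := Finset.single_le_sum (f := fun i => hh (b i)) (fun i _ => hh_nonneg (b i))
      (Finset.mem_univ i)
    have := abs_nonneg B
    linarith

end Pool.Agent.Y733.VR
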