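import Mathlib
import Pool.Agent.Y733.VR.Main

set_option autoImplicit false

/-!
Vojta's inequality on `(ℙ¹)^n` for points of bounded degree.
-/

namespace Pool.Agent.Y733.VR

open NumberField Module Height Real IsDedekindDomain

theorem violate (k : Type) [Field k] [NumberField k] (S : Finset (HeightOneSpectrum (𝓞 k))) {n : ℕ}
    (I : Finset (Fin n)) (J : ℕ)
    (G : MvPolynomial (Fin n) k) (hG : G ≠ 0) (hdeg : ∀ i ∈ I, G.degreeOf i < 2 ^ J)
    (ε κ C : ℝ) (hκ : 0 ≤ κ) (h : κ < (1 - ε) * I.card) :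
    ∃ (F : Type) (_ : Field F) (_ : NumberField F) (_ : Algebra k F) (x : Fin n → F),
      finrank k F ≤ 2 ^ ((I.card - 1) * J + 2) ∧
      IntermediateField.adjoin k (Set.range x) = ⊤ ∧ (∀ i, x i ≠ 0 ∧ x i ≠ 1) ∧
      MvPolynomial.aeval x G ≠ 0 ∧
      ε * ((∑ i, logHeight₁ (x i)) / finrank k F) +
        κ * (Real.log |(discr F : ℝ)| / finrank k F - Real.log |(discr k : ℝ)|) + C <
      -2 * ((∑ i, logHeight₁ (x i)) / finrank k F) +
        ((∑ v : InfinitePlace F, v.mult * ∑ i, wl v (x i)) +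
          ∑ᶠ w ∈ {w : FinitePlace F | ∃ p ∈ S, ∀ a ∈ p.asIdeal, w (algebraMap k F (a : k)) < 1},
            ∑ i, wl w (x i)) / finrank k F := by
  classical
  obtain ⟨c, B, hc, hp⟩ := points k I J G hG hdeg
  set d : ℝ := (finrank ℚ k : ℝ) with hd
  have hd0 : 0 < d := deg_pos
  have hgap : 0 < (1 - ε) * I.card - κ := by linarith
  have hε : 0 < 1 - ε := by
    by_contra h0
    push Not at h0
    have : (1 - ε) * I.card ≤ 0 := mul_nonpos_of_nonpos_of_nonneg h0 (Nat.cast_nonneg _)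
    linarith
  set R : ℝ := C / d + κ * B + (1 - ε) * (I.card * B) + 9 * I.card * Real.log 2 +
    |2 + ε| * (n * |B|) with hR
  obtain ⟨M, hM, F, iF, iN, iA, x, h1, h2, h3, h4, h5, h6, h7⟩ :=
    hp (R / (((1 - ε) * I.card - κ) * c) + 1)
  refine ⟨F, iF, iN, iA, x, h1, h2, h3, h4, ?_⟩
  have hf0 : (0 : ℝ) < finrank k F := by
    have : FiniteDimensional k F := inferInstance
    exact_mod_cast finrank_pos
  have hdf : (finrank ℚ F : ℝ) = d * finrank k F := finrank_tower k F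
  -- the height
  set H₁ : ℝ := ∑ i ∈ I, hh (x i) with hH₁
  set H₂ : ℝ := ∑ i ∈ Finset.univ \ I, hh (x i) with hH₂
  have hH : (∑ i, logHeight₁ (x i)) / finrank k F = d * (H₁ + H₂) := by
    rw [hH₁, hH₂, add_comm, Finset.sum_sdiff (Finset.subset_univ I), Finset.sum_div,
      Finset.mul_sum]
    refine Finset.sum_congr rfl fun i _ => ?_
    rw [hh_mul_deg, hdf]
    field_simp
  have hH2 : H₂ ≤ n * |B| := by
    have : H₂ ≤ ∑ i ∈ Finset.univ \ I, |B| := Finset.sum_le_sum fun i hi =>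
      (h7 i (Finset.mem_sdiff.1 hi).2).trans (le_abs_self B)
    refine this.trans ?_
    rw [Finset.sum_const, nsmul_eq_mul]
    refine mul_le_mul_of_nonneg_right ?_ (abs_nonneg B)
    have := Finset.card_le_univ (Finset.univ \ I : Finset (Fin n))
    rw [Fintype.card_fin] at this
    exact_mod_cast this
  have hH20 : 0 ≤ H₂ := Finset.sum_nonneg fun i _ => hh_nonneg _
  have hH1 : I.card * (c * M - B) ≤ H₁ := by
    have : ∑ i ∈ I, (c * M - B) ≤ H₁ := Finset.sum_le_sum fun i hi => (h6 i hi).1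
    rwa [Finset.sum_const, nsmul_eq_mul] at this
  -- the discriminant
  have hD : Real.log |(discr F : ℝ)| / finrank k F - Real.log |(discr k : ℝ)| =
      d * (ld F - ld k) := by
    unfold ld
    rw [hdf, ← hd]
    field_simp
  -- the proximity
  have hP : d * (3 * H₁ - 9 * I.card * Real.log 2) ≤
      ((∑ v : InfinitePlace F, v.mult * ∑ i, wl v (x i)) +
        ∑ᶠ w ∈ {w : FinitePlace F | ∃ p ∈ S, ∀ a ∈ p.asIdeal, w (algebraMap k F (a : k)) < 1},
          ∑ i, wl w (x i)) / finrank k F := by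
    rw [le_div_iff₀ hf0]
    have e1 : 0 ≤ ∑ᶠ w ∈ {w : FinitePlace F | ∃ p ∈ S, ∀ a ∈ p.asIdeal,
        w (algebraMap k F (a : k)) < 1}, ∑ i, wl w (x i) :=
      finsum_nonneg fun w => finsum_nonneg fun _ => Finset.sum_nonneg fun i _ => wl_nonneg _ _
    have e2 : (∑ v : InfinitePlace F, (v.mult : ℝ) * ∑ i, wl v (x i)) =
        ∑ i, ∑ v : InfinitePlace F, (v.mult : ℝ) * wl v (x i) := by
      simp_rw [Finset.mul_sum]
      exact Finset.sum_comm
    have e3 : ∑ i ∈ I, (3 * hh (x i) - 9 * Real.log 2) * finrank ℚ F ≤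
        ∑ i, ∑ v : InfinitePlace F, (v.mult : ℝ) * wl v (x i) := by
      refine le_trans ?_ (Finset.sum_le_sum_of_subset_of_nonneg (Finset.subset_univ I)
        fun i _ _ => Finset.sum_nonneg fun v _ => mul_nonneg (Nat.cast_nonneg _) (wl_nonneg _ _))
      refine Finset.sum_le_sum fun i hi => ?_
      obtain ⟨-, g1, g2, g3⟩ := h6 i hi
      have := wl_lower (x i) g1 g2 g3
      rwa [le_div_iff₀ deg_pos] at this
    rw [← Finset.sum_mul, Finset.sum_sub_distrib, ← Finset.mul_sum, Finset.sum_const,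
      nsmul_eq_mul, hdf] at e3
    rw [e2]
    have e4 : d * (3 * H₁ - 9 * I.card * Real.log 2) * finrank k F =
      (3 * ∑ i ∈ I, hh (x i) - I.card * (9 * Real.log 2)) * (d * finrank k F) := by
      rw [hH₁]; ring
    rw [e4]
    linarith
  refine lt_of_lt_of_le ?_ (add_le_add le_rfl hP)
  rw [hH, hD]
  -- the final inequality
  have f1 : R + (((1 - ε) * I.card - κ) * c) ≤ (((1 - ε) * I.card - κ) * c) * M := by
    have hpos : 0 < ((1 - ε) * I.card - κ) * c := mul_pos hgap hc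
    have := mul_le_mul_of_nonneg_left hM hpos.le
    rw [mul_add, mul_one, mul_div_cancel₀ _ hpos.ne'] at this
    exact this
  have f2 : 0 < ((1 - ε) * I.card - κ) * c := mul_pos hgap hc
  have f3 : κ * (ld F - ld k) ≤ κ * (c * M + B) := mul_le_mul_of_nonneg_left (by linarith) hκ
  have f4 : (1 - ε) * (I.card * (c * M - B)) ≤ (1 - ε) * H₁ :=
    mul_le_mul_of_nonneg_left hH1 hε.le
  have f5 : (2 + ε) * H₂ ≤ |2 + ε| * (n * |B|) :=
    (mul_le_mul_of_nonneg_right (le_abs_self _) hH20).trans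
      (mul_le_mul_of_nonneg_left hH2 (abs_nonneg _))
  have f6 : C / d + κ * (ld F - ld k) < (1 - ε) * H₁ - (2 + ε) * H₂ -
      9 * I.card * Real.log 2 := by
    rw [hR] at f1
    nlinarith
  have f7 : C = d * (C / d) := by field_simp
  rw [f7]
  have f8 := mul_lt_mul_of_pos_left f6 hd0
  nlinarith

theorem main (k : Type) [Field k] [NumberField k] (S : Finset (HeightOneSpectrum (𝓞 k))) (n : ℕ)
    (G : MvPolynomial (Fin n) k) (hG : G ≠ 0) (r : ℕ) (ε κ C : ℝ) (hκ : 0 ≤ κ)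
    (hV : ∀ (F : Type) [Field F] [NumberField F] [Algebra k F] (x : Fin n → F),
      finrank k F ≤ r → IntermediateField.adjoin k (Set.range x) = ⊤ →
      (∀ i, x i ≠ 0 ∧ x i ≠ 1) → MvPolynomial.aeval x G ≠ 0 →
      -2 * ((∑ i, logHeight₁ (x i)) / finrank k F) +
        ((∑ v : InfinitePlace F, v.mult * ∑ i, wl v (x i)) +
          ∑ᶠ w ∈ {w : FinitePlace F | ∃ p ∈ S, ∀ a ∈ p.asIdeal, w (algebraMap k F (a : k)) < 1},
            ∑ i, wl w (x i)) / finrank k F ≤
      ε * ((∑ i, logHeight₁ (x i)) / finrank k F) +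
        κ * (Real.log |(discr F : ℝ)| / finrank k F - Real.log |(discr k : ℝ)|) + C)
    (m J : ℕ) (hm : κ < (1 - ε) * m) (hr : 2 ^ ((m - 1) * J + 2) ≤ r) :
    (Finset.univ.filter fun i => G.degreeOf i < 2 ^ J).card < m := by
  by_contra hlt
  push Not at hlt
  obtain ⟨I, hI, hIm⟩ := Finset.exists_subset_card_eq hlt
  obtain ⟨F, iF, iN, iA, x, h1, h2, h3, h4, h5⟩ := violate k S I J G hG
    (fun i hi => (Finset.mem_filter.1 (hI hi)).2) ε κ C hκ (by rw [hIm]; exact hm)
  rw [hIm] at h1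
  exact absurd (hV F x (h1.trans hr) h2 h3 h4) (not_le.2 h5)

end Pool.Agent.Y733.VR
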