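import Mathlib
import Pool.Agent.Y733.VR.Fam
import Pool.Agent.Y733.VR.NonVan
import Pool.Agent.Y733.VR.Subst

set_option autoImplicit false

/-!
Points of bounded degree on `(ℙ¹)^n`, outside a given hypersurface, some of whose coordinates are
fixed natural numbers.
-/

namespace Pool.Agent.Y733.VR

open NumberField Module Height Real IsDedekindDomain

lemma exists_nat_point {k : Type} [Field k] [CharZero k] {n : ℕ} (G : MvPolynomial (Fin n) k)
    (hG : G ≠ 0) : ∃ b : Fin n → ℕ, MvPolynomial.eval (fun i => (b i : k)) G ≠ 0 ∧ ∀ i, 2 ≤ b i := by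
  by_contra hc
  push Not at hc
  apply hG
  have hinf : ∀ _ : Fin n, ((fun j : ℕ => ((j + 2 : ℕ) : k)) '' Set.univ).Infinite := fun _ =>
    Set.infinite_univ.image (fun a _ b _ hab => by
      have : ((a + 2 : ℕ) : k) = ((b + 2 : ℕ) : k) := hab
      have := Nat.cast_injective this
      omega)
  refine MvPolynomial.funext_set _ hinf fun x hx => ?_
  rw [map_zero]
  by_contra hne
  have h1 : ∀ i, ∃ j : ℕ, ((j + 2 : ℕ) : k) = x i := fun i => by
    obtain ⟨j, -, hj⟩ := hx i (Set.mem_univ i)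
    exact ⟨j, hj⟩
  choose g hg using h1
  obtain ⟨i, hi⟩ := hc (fun i => g i + 2) (by
    have : (fun i => ((g i + 2 : ℕ) : k)) = x := funext hg
    rw [this]
    exact hne)
  omega

theorem pointsL (k : Type) [Field k] [NumberField k] {n : ℕ} (I : Finset (Fin n)) (J : ℕ)
    (G : MvPolynomial (Fin n) k) (hG : G ≠ 0) (hdeg : ∀ i ∈ I, G.degreeOf i < 2 ^ J) :
    ∃ (σ : k →+* ℂ) (b : Fin n → ℕ) (c B : ℝ), (∀ i, 2 ≤ b i) ∧ 0 < c ∧ ∀ T : ℝ, ∃ M : ℕ, T ≤ M ∧
      ∃ (L : Type) (_ : Field L) (_ : NumberField L) (_ : Algebra k L) (τ : L →+* ℂ)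
        (y u : Fin n → L) (r : Fin n → ℝ),
        (∀ x, τ (algebraMap k L x) = σ x) ∧ finrank k L ≤ 2 ^ ((I.card - 1) * J + 2) ∧
        ld L ≤ ld k + c * M + B ∧ MvPolynomial.aeval y G ≠ 0 ∧
        (∀ i ∈ I, c * M - B ≤ hh (y i) ∧ y i = 1 - u i ^ 2 ∧ Inv τ (u i) (r i)) ∧
        ∀ i, i ∉ I → y i = b i := by
  classical
  obtain ⟨b, hbG, hb⟩ := exists_nat_point G hG
  set m := I.card with hm
  set e := I.equivFin with he
  obtain ⟨σ⟩ : Nonempty (k →+* ℂ) := inferInstance
  set P : MvPolynomial (Fin I.card) ℂ :=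
    MvPolynomial.map σ (spec I (fun i => (b i : k)) G) with hP
  have hP0 : P ≠ 0 := by
    intro h
    refine spec_ne_zero I _ G hbG (MvPolynomial.map_injective σ σ.injective ?_)
    rw [map_zero]
    exact h
  have hPd : ∀ i, P.degreeOf i < 2 ^ J := by
    intro i
    refine lt_of_le_of_lt ?_ (hdeg _ (e.symm i).2)
    refine le_trans ?_ (degreeOf_spec_le I (fun i => (b i : k)) G i)
    rw [hP, MvPolynomial.degreeOf_le_iff]
    intro s hs
    exact MvPolynomial.monomial_le_degreeOf _ (MvPolynomial.support_map_subset _ _ hs)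
  obtain ⟨δ, hδ, hnv⟩ := nonvan I.card J P hP0 hPd
  obtain ⟨c, B, hc, hfam⟩ := fam k σ ((I.card - 1) * J)
  refine ⟨σ, b, c, B, hb, hc, fun T => ?_⟩
  have hs2 : Real.sqrt 2 - 1 < 1 := by
    have : Real.sqrt 2 < 2 := by
      rw [Real.sqrt_lt' (by norm_num)]; norm_num
    linarith
  have hs1 : 0 < Real.sqrt 2 - 1 := by
    have : 1 < Real.sqrt 2 := by
      rw [Real.lt_sqrt (by norm_num)]; norm_num
    linarith
  obtain ⟨M₁, hM₁⟩ := exists_pow_lt_of_lt_one hδ hs2
  obtain ⟨M₂, hM₂⟩ := exists_nat_ge T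
  set M := max M₁ M₂ with hM
  have hMδ : (Real.sqrt 2 - 1) ^ M < δ :=
    (pow_le_pow_of_le_one hs1.le hs2.le (le_max_left _ _)).trans_lt hM₁
  have hMT : T ≤ M := hM₂.trans (by exact_mod_cast le_max_right M₁ M₂)
  refine ⟨M, hMT, ?_⟩
  obtain ⟨L, iF, iN, iA, τ, u, r, hτ, hfin, hld, ht0, ht1, hu⟩ := hfam M
  set v : Fin n → L := fun i => if h : i ∈ I then u ((e ⟨i, h⟩ : ℕ) * J) else 0 with hv
  set s : Fin n → ℝ := fun i => if h : i ∈ I then r ((e ⟨i, h⟩ : ℕ) * J) else 0 with hs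
  set y : Fin n → L := fun i => if i ∈ I then 1 - v i ^ 2 else (b i : L) with hy
  have hle : ∀ i (h : i ∈ I), (e ⟨i, h⟩ : ℕ) * J ≤ (I.card - 1) * J := by
    intro i h
    refine Nat.mul_le_mul_right J ?_
    have := (e ⟨i, h⟩).2
    omega
  have hvI : ∀ i (h : i ∈ I), v i = u ((e ⟨i, h⟩ : ℕ) * J) := fun i h => by
    rw [hv]; simp only [dif_pos h]
  have hsI : ∀ i (h : i ∈ I), s i = r ((e ⟨i, h⟩ : ℕ) * J) := fun i h => by
    rw [hs]; simp only [dif_pos h]
  have hyI : ∀ i, i ∈ I → y i = 1 - v i ^ 2 := fun i h => by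
    rw [hy]; simp only [if_pos h]
  have hyI' : ∀ i, i ∉ I → y i = b i := fun i h => by
    rw [hy]; simp only [if_neg h]
  refine ⟨L, iF, iN, iA, τ, y, v, s, hτ, hfin, hld, ?_, ?_, hyI'⟩
  · intro h0
    have h1 := hnv (1 - r 0 ^ 2) (fun a => 1 - r ((a : ℕ) * J) ^ 2) ht0 (ht1.trans_lt hMδ) (by
      intro a
      have h2 := hu ((a : ℕ) * J) (Nat.mul_le_mul_right J (by have := a.2; omega))
      exact ⟨h2.2.2.1, h2.2.2.2⟩)
    apply h1
    have h3 : (MvPolynomial.eval (fun a : Fin I.card => ((1 - r ((a : ℕ) * J) ^ 2 : ℝ) : ℂ))).comp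
        ((MvPolynomial.map σ).comp (MvPolynomial.aeval (fun i => if h : i ∈ I then
          (MvPolynomial.X (I.equivFin ⟨i, h⟩) : MvPolynomial (Fin I.card) k)
          else MvPolynomial.C ((b i : k)))).toRingHom) =
        τ.comp (MvPolynomial.aeval (R := k) y).toRingHom := by
      refine MvPolynomial.ringHom_ext (fun a => ?_) fun i => ?_
      · simp only [AlgHom.toRingHom_eq_coe, RingHom.coe_comp, RingHom.coe_coe,
          Function.comp_apply, MvPolynomial.algHom_C, MvPolynomial.algebraMap_eq,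
          MvPolynomial.map_C, MvPolynomial.eval_C]
        rw [← hτ]
      · simp only [AlgHom.toRingHom_eq_coe, RingHom.coe_comp, RingHom.coe_coe,
          Function.comp_apply, MvPolynomial.aeval_X]
        by_cases hi : i ∈ I
        · rw [dif_pos hi, hyI i hi, hvI i hi, MvPolynomial.map_X, MvPolynomial.eval_X, map_sub,
            map_one, map_pow, (hu _ (hle i hi)).1.real]
          push_cast
          rfl
        · rw [dif_neg hi, hyI' i hi, MvPolynomial.map_C, MvPolynomial.eval_C, map_natCast,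
            map_natCast]
    have h4 := congrArg (fun f => f G) h3
    simp only [RingHom.coe_comp, Function.comp_apply] at h4
    have h5 : (MvPolynomial.aeval (R := k) y).toRingHom G = 0 := h0
    rw [h5, map_zero] at h4
    exact h4
  · intro i hi
    obtain ⟨h1, h2, -, -⟩ := hu _ (hle i hi)
    refine ⟨?_, hyI i hi, ?_⟩
    · rw [hyI i hi, hvI i hi]
      exact h2
    · rw [hvI i hi, hsI i hi]
      exact h1

end Pool.Agent.Y733.VR
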