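import Mathlib
import Pool.Agent.Y733.VR.Tower

set_option autoImplicit false

/-!
Adjoining `N`-th roots of divisors of a fixed integer.
-/

namespace Pool.Agent.Y733.VR

open NumberField Module IntermediateField Polynomial

theorem ext_root (N : ℕ) (hN : N ≠ 0) (L : Type) [Field L] [NumberField L] (σ : L →+* ℂ) (a : L)
    (z : ℂ) (hz : z ^ N = σ a) :
    ∃ (M : Type) (_ : Field M) (_ : NumberField M) (_ : Algebra L M) (τ : M →+* ℂ) (b : M),
      (∀ x, τ (algebraMap L M x) = σ x) ∧ b ^ N = algebraMap L M a ∧ L⟮b⟯ = ⊤ ∧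
        finrank L M ≤ N := by
  let _ : Algebra L ℂ := σ.toAlgebra
  have hpm : (X ^ N - C a : L[X]).Monic := monic_X_pow_sub_C a hN
  have hev : aeval z (X ^ N - C a : L[X]) = 0 := by
    rw [map_sub, map_pow, aeval_X, aeval_C, hz]
    exact sub_self _
  have hint : IsIntegral L z := ⟨X ^ N - C a, hpm, by rw [← aeval_def]; exact hev⟩
  have hfd : FiniteDimensional L L⟮z⟯ := adjoin.finiteDimensional hint
  have hNF : NumberField L⟮z⟯ := NumberField.of_module_finite L L⟮z⟯
  refine ⟨L⟮z⟯, inferInstance, hNF, inferInstance, (L⟮z⟯.val : L⟮z⟯ →+* ℂ),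
    AdjoinSimple.gen L z, fun x => ?_, ?_, ?_, ?_⟩
  · rfl
  · apply Subtype.ext
    rw [SubmonoidClass.coe_pow, AdjoinSimple.coe_gen, hz]
    rfl
  · refine adjoin_self_top {z} {AdjoinSimple.gen L z} ?_
    rw [Set.image_singleton]
    rfl
  · rw [adjoin.finrank hint]
    refine (natDegree_le_of_dvd (minpoly.dvd L z hev) hpm.ne_zero).trans ?_
    rw [natDegree_X_pow_sub_C]

section
variable {L : Type} [Field L] [NumberField L]

/-- the discriminant of the extension by the `N`-th root of a divisor of `q` -/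
lemma ld_root (N q : ℕ) (hN : N ≠ 0) (hq : q ≠ 0) {M : Type} [Field M] [NumberField M]
    [Algebra L M] {a : L} (ha0 : a ≠ 0) (hint : IsIntegral ℤ a) (hqa : IsIntegral ℤ ((q : L) / a))
    {b : M} (hb : b ^ N = algebraMap L M a) (htop : L⟮b⟯ = ⊤) :
    ld M ≤ ld L + (Real.log N + Real.log q) := by
  have ha' : algebraMap L M a ≠ 0 := by
    rwa [Ne, FaithfulSMul.algebraMap_eq_zero_iff]
  have hb0 : b ≠ 0 := by
    rintro rfl
    apply ha'
    rw [← hb, zero_pow hN]
  have hbint : IsIntegral ℤ b := IsIntegral.of_pow (n := N) (Nat.pos_of_ne_zero hN) (by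
    rw [hb]; exact isIntegral_map _ hint)
  set β : 𝓞 M := ⟨b, hbint⟩ with hβ
  set α : 𝓞 L := ⟨a, hint⟩ with hα
  have hroot : aeval β (X ^ N - C α : (𝓞 L)[X]) = 0 := by
    apply RingOfIntegers.coe_injective
    rw [map_sub, map_pow, aeval_X, aeval_C, map_sub, map_pow, map_zero]
    have : algebraMap (𝓞 M) M (algebraMap (𝓞 L) (𝓞 M) α) = algebraMap L M a := rfl
    rw [this, ← hb]
    exact sub_self _
  have hder : aeval β (derivative (X ^ N - C α : (𝓞 L)[X])) = (N : 𝓞 M) * β ^ (N - 1) := by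
    rw [derivative_sub, derivative_C, sub_zero, derivative_X_pow, map_mul, aeval_C, map_pow,
      aeval_X, map_natCast]
  have hcoe : (((N : 𝓞 M) * β ^ (N - 1) : 𝓞 M) : M) = (N : M) * b ^ (N - 1) := by
    push_cast
    rfl
  have hNM : (N : M) ≠ 0 := Nat.cast_ne_zero.2 hN
  have hne : (N : M) * b ^ (N - 1) ≠ 0 := mul_ne_zero hNM (pow_ne_zero _ hb0)
  have h := ld_le L M β htop (X ^ N - C α) hroot (by
    rw [hder]
    intro h0
    apply hne
    rw [← hcoe, h0]
    rfl)
  rw [hder, hcoe] at h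
  have h5 : ln ((N : M) * b ^ (N - 1)) ≤ Real.log N + Real.log q := by
    rw [ln_mul _ _ hNM (pow_ne_zero _ hb0), ln_natCast N hN]
    have e1 : b ^ (N - 1) * (b * algebraMap L M ((q : L) / a)) = ((q : ℕ) : M) := by
      rw [← mul_assoc, ← pow_succ, Nat.sub_add_cancel (Nat.one_le_iff_ne_zero.2 hN), hb,
        ← map_mul, mul_div_cancel₀ _ ha0, map_natCast]
    have hqM : algebraMap L M ((q : L) / a) ≠ 0 := by
      rw [Ne, FaithfulSMul.algebraMap_eq_zero_iff]
      exact div_ne_zero (Nat.cast_ne_zero.2 hq) ha0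
    have e2 := congrArg ln e1
    rw [ln_mul _ _ (pow_ne_zero _ hb0) (mul_ne_zero hb0 hqM), ln_natCast q hq] at e2
    have e3 := ln_nonneg (b * algebraMap L M ((q : L) / a))
      (hbint.mul (isIntegral_map (algebraMap L M) hqa)) (mul_ne_zero hb0 hqM)
    linarith
  unfold ln at h5
  linarith

end

theorem roots (N q : ℕ) (hN : N ≠ 0) (hq : q ≠ 0) (s : ℕ) (L : Type) [Field L] [NumberField L]
    (σ : L →+* ℂ) (a : ℕ → L)
    (ha : ∀ j, a j ≠ 0 ∧ IsIntegral ℤ (a j) ∧ IsIntegral ℤ ((q : L) / a j)) :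
    ∃ (M : Type) (_ : Field M) (_ : NumberField M) (_ : Algebra L M) (τ : M →+* ℂ) (b : ℕ → M),
      (∀ x, τ (algebraMap L M x) = σ x) ∧ (∀ j < s, b j ^ N = algebraMap L M (a j)) ∧
      finrank L M ≤ N ^ s ∧ ld M ≤ ld L + s * (Real.log N + Real.log q) := by
  induction s with
  | zero =>
    refine ⟨L, inferInstance, inferInstance, inferInstance, σ, fun _ => 0, fun x => rfl,
      fun j hj => absurd hj (Nat.not_lt_zero j), ?_, ?_⟩
    · rw [finrank_self, pow_zero]
    · simp
  | succ s ih =>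
    obtain ⟨M₁, iF, iN, iA, τ, b, h1, h2, h3, h4⟩ := ih
    obtain ⟨z, hz⟩ := IsAlgClosed.exists_pow_nat_eq (σ (a s)) (Nat.pos_of_ne_zero hN)
    obtain ⟨M, jF, jN, jA, τ', c, g1, g2, g3, g4⟩ := ext_root N hN M₁ τ (algebraMap L M₁ (a s)) z
      (by rw [h1, hz])
    let _ : Algebra L M := ((algebraMap M₁ M).comp (algebraMap L M₁)).toAlgebra
    have hst : IsScalarTower L M₁ M := IsScalarTower.of_algebraMap_eq (fun x => rfl)
    refine ⟨M, jF, jN, inferInstance, τ', fun i => if i < s then algebraMap M₁ M (b i) else c,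
      ?_, ?_, ?_, ?_⟩
    · intro x
      rw [← h1 x, ← g1 (algebraMap L M₁ x)]
      rfl
    · intro j hj
      by_cases hjs : j < s
      · simp only [if_pos hjs]
        rw [← map_pow, h2 j hjs]
        rfl
      · have : j = s := by omega
        subst this
        simp only [if_neg hjs]
        rw [g2]
        rfl
    · rw [← finrank_mul_finrank L M₁ M, pow_succ]
      exact Nat.mul_le_mul h3 g4
    · obtain ⟨a1, a2, a3⟩ := ha s
      have h8 := ld_root (L := M₁) (M := M) N q hN hq (a := algebraMap L M₁ (a s))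
        (by rwa [Ne, FaithfulSMul.algebraMap_eq_zero_iff]) (isIntegral_map _ a2)
        (by
          have := isIntegral_map (algebraMap L M₁) a3
          rwa [map_div₀, map_natCast] at this) g2 g3
      push_cast
      linarith

end Pool.Agent.Y733.VR
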