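import Mathlib
import Pool.Agent.Y733.VR.PointsL
import Pool.Agent.Y733.VR.Root

set_option autoImplicit false

/-!
Points of bounded degree on products of Fermat curves.
-/

namespace Pool.Agent.Y733.VR

open NumberField Module Height Real IsDedekindDomain

lemma dvd_isIntegral {L : Type} [Field L] [CharZero L] {q t : ℕ} (ht : t ≠ 0) (h : t ∣ q) :
    IsIntegral ℤ ((q : L) / (t : L)) := by
  obtain ⟨s, rfl⟩ := h
  have : ((t * s : ℕ) : L) / (t : L) = (s : L) := by
    have ht' : (t : L) ≠ 0 := Nat.cast_ne_zero.2 ht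
    push_cast
    field_simp
  rw [this]
  exact isInt_nat s

theorem fermatPoints (k : Type) [Field k] [NumberField k] (N : ℕ) (hN : N ≠ 0) {n : ℕ}
    (I : Finset (Fin n)) (J : ℕ)
    (G : MvPolynomial (Fin n) k) (hG : G ≠ 0) (hdeg : ∀ i ∈ I, G.degreeOf i < 2 ^ J) :
    ∃ c B : ℝ, 0 < c ∧ ∀ T : ℝ, ∃ M : ℕ, T ≤ M ∧
      ∃ (F : Type) (_ : Field F) (_ : NumberField F) (_ : Algebra k F) (a b : Fin n → F),
        (∀ i, a i ^ N + b i ^ N = 1) ∧ finrank k F ≤ 2 ^ ((I.card - 1) * J + 2) * N ^ (2 * n) ∧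
        IntermediateField.adjoin k (Set.range a ∪ Set.range b) = ⊤ ∧
        MvPolynomial.aeval (fun i => a i ^ N) G ≠ 0 ∧ ld F ≤ ld k + c * M + B ∧
        ∀ i ∈ I, c * M - B ≤ hh (a i ^ N) := by
  classical
  obtain ⟨σ, b₀, c, B, hb₀, hc, hp⟩ := pointsL k I J G hG hdeg
  set q : ℕ := 16 * ∏ i, (b₀ i * (b₀ i - 1)) with hq
  have hq0 : q ≠ 0 := by
    rw [hq]
    refine mul_ne_zero (by norm_num) (Finset.prod_ne_zero_iff.2 fun i _ => ?_)
    have := hb₀ i
    exact mul_ne_zero (by omega) (by omega)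
  have hlog : 0 ≤ Real.log N + Real.log q :=
    add_nonneg (Real.log_natCast_nonneg N) (Real.log_natCast_nonneg q)
  set B' : ℝ := |B| + ((2 * n : ℕ) : ℝ) * (Real.log N + Real.log q) with hB'
  have hBB : B + ((2 * n : ℕ) : ℝ) * (Real.log N + Real.log q) ≤ B' := by
    have := le_abs_self B
    linarith
  have hBB' : B ≤ B' := by
    have := mul_nonneg (Nat.cast_nonneg (α := ℝ) (2 * n)) hlog
    linarith
  refine ⟨c, B', hc, fun T => ?_⟩
  obtain ⟨M, hMT, L, iF, iN, iA, τ, y, u, r, h1, h2, h3, h4, h5, h6⟩ := hp T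
  refine ⟨M, hMT, ?_⟩
  -- the divisors of `q`
  have hy : ∀ i, (y i ≠ 0 ∧ IsIntegral ℤ (y i) ∧ IsIntegral ℤ ((q : L) / y i)) ∧
      (1 - y i ≠ 0 ∧ IsIntegral ℤ (1 - y i) ∧ IsIntegral ℤ ((q : L) / (1 - y i))) := by
    intro i
    by_cases hi : i ∈ I
    · obtain ⟨-, g1, g2⟩ := h5 i hi
      have e1 : y i = (1 + u i) * (1 - u i) := by rw [g1]; ring
      have e2 : 1 - y i = u i ^ 2 := by rw [g1]; ring
      refine ⟨⟨?_, ?_, ?_⟩, ?_, ?_, ?_⟩
      · rw [e1]
        exact mul_ne_zero g2.add_ne g2.sub_ne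
      · rw [g1]
        exact isIntegral_one.sub (g2.int.pow 2)
      · rw [e1, div_eq_mul_inv, mul_inv]
        exact (isInt_nat q).mul (g2.hp.mul g2.hm)
      · rw [e2]
        exact pow_ne_zero _ g2.ne_zero
      · rw [e2]
        exact g2.int.pow 2
      · have h0 := g2.ne_zero
        have e3 : (q : L) / (1 - y i) = (4 / u i) ^ 2 *
            ((∏ i, (b₀ i * (b₀ i - 1)) : ℕ) : L) := by
          rw [e2, hq, div_pow]
          push_cast
          ring
        rw [e3]
        exact (g2.int4.pow 2).mul (isInt_nat _)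
    · have e1 := h6 i hi
      have hb := hb₀ i
      have hd : b₀ i * (b₀ i - 1) ∣ q := Dvd.dvd.mul_left
        (Finset.dvd_prod_of_mem (fun i => b₀ i * (b₀ i - 1)) (Finset.mem_univ i)) 16
      have e2 : 1 - y i = -((b₀ i - 1 : ℕ) : L) := by
        rw [e1, Nat.cast_sub (by omega)]
        push_cast
        ring
      refine ⟨⟨?_, ?_, ?_⟩, ?_, ?_, ?_⟩
      · rw [e1]
        exact Nat.cast_ne_zero.2 (by omega)
      · rw [e1]
        exact isInt_nat _
      · rw [e1]
        exact dvd_isIntegral (by omega) (dvd_of_mul_right_dvd hd)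
      · rw [e2]
        exact neg_ne_zero.2 (Nat.cast_ne_zero.2 (by omega))
      · rw [e2]
        exact (isInt_nat _).neg
      · rw [e2, div_neg]
        exact (dvd_isIntegral (by omega) (dvd_of_mul_left_dvd hd)).neg
  set l : ℕ → L := fun j => if h : j < n then y ⟨j, h⟩ else
    if h : j - n < n then 1 - y ⟨j - n, h⟩ else 1 with hl
  have hl1 : ∀ i : Fin n, l i = y i := fun i => by
    rw [hl]; simp only [dif_pos i.2]
  have hl2 : ∀ i : Fin n, l (n + i) = 1 - y i := fun i => by
    rw [hl]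
    have e1 : ¬ n + (i : ℕ) < n := by omega
    have e2 : n + (i : ℕ) - n < n := by have := i.2; omega
    simp only [dif_neg e1, dif_pos e2]
    congr 3
    omega
  have hl3 : ∀ j, l j ≠ 0 ∧ IsIntegral ℤ (l j) ∧ IsIntegral ℤ ((q : L) / l j) := by
    intro j
    by_cases e1 : j < n
    · have e2 := hl1 ⟨j, e1⟩
      simp only at e2
      rw [e2]
      exact (hy ⟨j, e1⟩).1
    · by_cases e3 : j - n < n
      · have e2 := hl2 ⟨j - n, e3⟩
        have e4 : n + (j - n) = j := by omega
        simp only [e4] at e2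
        rw [e2]
        exact (hy ⟨j - n, e3⟩).2
      · have e2 : l j = 1 := by
          rw [hl]
          simp only [dif_neg e1, dif_neg e3]
        rw [e2, div_one]
        exact ⟨one_ne_zero, isIntegral_one, isInt_nat q⟩
  obtain ⟨M', jF, jN, jA, τ', w, g1, g2, g3, g4⟩ := roots N q hN hq0 (2 * n) L τ l hl3
  let _ : Algebra k M' := ((algebraMap L M').comp (algebraMap k L)).toAlgebra
  have hst : IsScalarTower k L M' := IsScalarTower.of_algebraMap_eq (fun x => rfl)
  set a : Fin n → M' := fun i => w i with ha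
  set b : Fin n → M' := fun i => w (n + i) with hb
  have haN : ∀ i, a i ^ N = algebraMap L M' (y i) := fun i => by
    rw [ha]
    simp only
    rw [g2 i (by have := i.2; omega), hl1]
  have hbN : ∀ i, b i ^ N = algebraMap L M' (1 - y i) := fun i => by
    rw [hb]
    simp only
    rw [g2 (n + i) (by have := i.2; omega), hl2]
  let F := IntermediateField.adjoin k (Set.range a ∪ Set.range b)
  have ham : ∀ i, a i ∈ F := fun i => IntermediateField.subset_adjoin k _ (Or.inl ⟨i, rfl⟩)
  have hbm : ∀ i, b i ∈ F := fun i => IntermediateField.subset_adjoin k _ (Or.inr ⟨i, rfl⟩)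
  set a' : Fin n → F := fun i => ⟨a i, ham i⟩ with ha'
  set b' : Fin n → F := fun i => ⟨b i, hbm i⟩ with hb'
  have hal : ∀ i, algebraMap F M' (a' i) = a i := fun i => rfl
  have hbl : ∀ i, algebraMap F M' (b' i) = b i := fun i => rfl
  have hfd : FiniteDimensional k M' := inferInstance
  refine ⟨F, inferInstance, inferInstance, inferInstance, a', b', ?_, ?_, ?_, ?_, ?_, ?_⟩
  · intro i
    apply (algebraMap F M').injective
    rw [map_add, map_pow, map_pow, hal, hbl, haN, hbN, ← map_add, map_one, add_sub_cancel,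
      map_one]
  · refine le_trans (Nat.le_of_dvd finrank_pos (Dvd.intro (finrank F M')
      (finrank_mul_finrank k F M'))) ?_
    rw [← finrank_mul_finrank k L M']
    exact Nat.mul_le_mul h2 g3
  · refine adjoin_self_top (Set.range a ∪ Set.range b) (Set.range a' ∪ Set.range b') ?_
    rw [Set.image_union, ← Set.range_comp, ← Set.range_comp]
    rfl
  · intro h0
    apply h4
    have e1 : algebraMap F M' (MvPolynomial.aeval (fun i => a' i ^ N) G) =
        algebraMap L M' (MvPolynomial.aeval y G) := by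
      rw [← MvPolynomial.aeval_algebraMap_apply, ← MvPolynomial.aeval_algebraMap_apply]
      congr 2
      funext i
      simp only [Function.comp_apply]
      rw [map_pow, hal, haN]
    rw [h0, map_zero] at e1
    exact (map_eq_zero _).1 e1.symm
  · have := ld_mono F M'
    linarith
  · intro i hi
    rw [← hh_ext M' (a' i ^ N), map_pow, hal, haN, hh_ext]
    have := (h5 i hi).1
    linarith

end Pool.Agent.Y733.VR
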