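import Mathlib
import Pool.Agent.Y733.VR.Fermat

set_option autoImplicit false

/-!
Vojta's inequality on products of Fermat curves for points of bounded degree.
-/

namespace Pool.Agent.Y733.VR

open NumberField Module Height Real IsDedekindDomain

lemma logHeight_fermat_ge {F : Type} [Field F] [NumberField F] (a b : F) :
    logHeight₁ a ≤ logHeight ![a, b, 1] := by
  rw [logHeight₁_eq_logHeight]
  have h := logHeight_comp_le (![0, 2] : Fin 2 → Fin 3) (![a, b, 1] : Fin 3 → F)
  have h2 : (![a, b, 1] : Fin 3 → F) ∘ (![0, 2] : Fin 2 → Fin 3) = ![a, 1] := by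
    funext i
    fin_cases i <;> rfl
  rwa [h2] at h

theorem violate2 (k : Type) [Field k] [NumberField k] (N : ℕ) (hN : N ≠ 0) {n : ℕ}
    (I : Finset (Fin n)) (J : ℕ)
    (G : MvPolynomial (Fin n) k) (hG : G ≠ 0) (hdeg : ∀ i ∈ I, G.degreeOf i < 2 ^ J)
    (ε κ C : ℝ) (hκ : 0 ≤ κ) (h : κ * N < (N - 3 - ε) * I.card) :
    ∃ (F : Type) (_ : Field F) (_ : NumberField F) (_ : Algebra k F) (a b : Fin n → F),
      (∀ i, a i ^ N + b i ^ N = 1) ∧ finrank k F ≤ 2 ^ ((I.card - 1) * J + 2) * N ^ (2 * n) ∧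
      IntermediateField.adjoin k (Set.range a ∪ Set.range b) = ⊤ ∧
      MvPolynomial.aeval (fun i => a i ^ N) G ≠ 0 ∧
      κ * (Real.log |(discr F : ℝ)| / finrank k F - Real.log |(discr k : ℝ)|) +
        ε * ((∑ i, logHeight ![a i, b i, 1]) / finrank k F) + C <
      (N - 3) * ((∑ i, logHeight ![a i, b i, 1]) / finrank k F) := by
  classical
  obtain ⟨c, B, hc, hp⟩ := fermatPoints k N hN I J G hG hdeg
  set d : ℝ := (finrank ℚ k : ℝ) with hd
  have hd0 : 0 < d := deg_pos
  have hN0 : (0 : ℝ) < N := by exact_mod_cast Nat.pos_of_ne_zero hN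
  have hgap : 0 < (N - 3 - ε) * I.card - κ * N := by linarith
  have hε : 0 < N - 3 - ε := by
    by_contra h0
    push Not at h0
    have h1 : (N - 3 - ε) * I.card ≤ 0 := mul_nonpos_of_nonpos_of_nonneg h0 (Nat.cast_nonneg _)
    have h2 : 0 ≤ κ * N := mul_nonneg hκ hN0.le
    linarith
  set R : ℝ := C / d * N + κ * B * N + (N - 3 - ε) * (I.card * B) with hR
  obtain ⟨M, hM, F, iF, iN, iA, a, b, h1, h2, h3, h4, h5, h6⟩ :=
    hp (R / (((N - 3 - ε) * I.card - κ * N) * c) + 1)
  refine ⟨F, iF, iN, iA, a, b, h1, h2, h3, h4, ?_⟩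
  have hf0 : (0 : ℝ) < finrank k F := by
    have : FiniteDimensional k F := inferInstance
    exact_mod_cast finrank_pos
  have hdf : (finrank ℚ F : ℝ) = d * finrank k F := finrank_tower k F
  set H : ℝ := (∑ i, logHeight ![a i, b i, 1]) / finrank k F with hHdef
  have hH : d * (I.card * (c * M - B)) ≤ N * H := by
    have e1 : ∀ i ∈ I, (c * M - B) * (d * finrank k F) ≤ N * logHeight ![a i, b i, 1] := by
      intro i hi
      have e2 := h6 i hi
      have e3 : hh (a i ^ N) * (d * finrank k F) = N * logHeight₁ (a i) := by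
        rw [← hdf, ← hh_mul_deg, logHeight₁_pow]
      have e4 : (c * M - B) * (d * finrank k F) ≤ hh (a i ^ N) * (d * finrank k F) :=
        mul_le_mul_of_nonneg_right e2 (mul_pos hd0 hf0).le
      rw [e3] at e4
      exact e4.trans (mul_le_mul_of_nonneg_left (logHeight_fermat_ge _ _) hN0.le)
    have e5 : ∑ i ∈ I, (c * M - B) * (d * finrank k F) ≤ ∑ i, N * logHeight ![a i, b i, 1] :=
      (Finset.sum_le_sum e1).trans (Finset.sum_le_sum_of_subset_of_nonneg (Finset.subset_univ I)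
        fun i _ _ => mul_nonneg hN0.le ((zero_le_logHeight₁ (a i)).trans
          (logHeight_fermat_ge _ _)))
    rw [Finset.sum_const, nsmul_eq_mul, ← Finset.mul_sum] at e5
    rw [hHdef, mul_div_assoc', le_div_iff₀ hf0]
    linarith
  have hD : Real.log |(discr F : ℝ)| / finrank k F - Real.log |(discr k : ℝ)| =
      d * (ld F - ld k) := by
    unfold ld
    rw [hdf, ← hd]
    field_simp
  rw [hD]
  have f1 : R + ((N - 3 - ε) * I.card - κ * N) * c ≤ (((N - 3 - ε) * I.card - κ * N) * c) * M := by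
    have hpos : 0 < ((N - 3 - ε) * I.card - κ * N) * c := mul_pos hgap hc
    have := mul_le_mul_of_nonneg_left hM hpos.le
    rw [mul_add, mul_one, mul_div_cancel₀ _ hpos.ne'] at this
    exact this
  have f2 : 0 < ((N - 3 - ε) * I.card - κ * N) * c := mul_pos hgap hc
  have f3 : κ * (ld F - ld k) ≤ κ * (c * M + B) := mul_le_mul_of_nonneg_left (by linarith) hκ
  have f4 : (N - 3 - ε) * (d * (I.card * (c * M - B))) ≤ (N - 3 - ε) * (N * H) :=
    mul_le_mul_of_nonneg_left hH hε.le
  have f5 : (C / d + κ * (ld F - ld k)) * N < (N - 3 - ε) * (I.card * (c * M - B)) := by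
    rw [hR] at f1
    have := mul_le_mul_of_nonneg_right f3 hN0.le
    nlinarith
  have f6 := mul_lt_mul_of_pos_left f5 hd0
  have f7 : d * ((C / d + κ * (ld F - ld k)) * N) = (C + κ * (d * (ld F - ld k))) * N := by
    field_simp
  rw [f7] at f6
  have f8 : (C + κ * (d * (ld F - ld k))) * N < ((N - 3 - ε) * H) * N := by
    calc _ < d * ((N - 3 - ε) * (I.card * (c * M - B))) := f6
      _ = (N - 3 - ε) * (d * (I.card * (c * M - B))) := by ring
      _ ≤ _ := f4
      _ = _ := by ring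
  have f9 := lt_of_mul_lt_mul_right f8 hN0.le
  linarith

theorem main2 (k : Type) [Field k] [NumberField k] (N n : ℕ) (hN : N ≠ 0)
    (G : MvPolynomial (Fin n) k) (hG : G ≠ 0) (r : ℕ) (ε κ C : ℝ) (hκ : 0 ≤ κ)
    (hV : ∀ (F : Type) [Field F] [NumberField F] [Algebra k F] (a b : Fin n → F),
      (∀ i, a i ^ N + b i ^ N = 1) → finrank k F ≤ r →
      IntermediateField.adjoin k (Set.range a ∪ Set.range b) = ⊤ →
      MvPolynomial.aeval (fun i => a i ^ N) G ≠ 0 →
      (N - 3) * ((∑ i, logHeight ![a i, b i, 1]) / finrank k F) ≤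
      κ * (Real.log |(discr F : ℝ)| / finrank k F - Real.log |(discr k : ℝ)|) +
        ε * ((∑ i, logHeight ![a i, b i, 1]) / finrank k F) + C)
    (m J : ℕ) (hm : κ * N < (N - 3 - ε) * m) (hr : 2 ^ ((m - 1) * J + 2) * N ^ (2 * n) ≤ r) :
    (Finset.univ.filter fun i => G.degreeOf i < 2 ^ J).card < m := by
  by_contra hlt
  push Not at hlt
  obtain ⟨I, hI, hIm⟩ := Finset.exists_subset_card_eq hlt
  obtain ⟨F, iF, iN, iA, a, b, h1, h2, h3, h4, h5⟩ := violate2 k N hN I J G hG
    (fun i hi => (Finset.mem_filter.1 (hI hi)).2) ε κ C hκ (by rw [hIm]; exact hm)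
  rw [hIm] at h2
  exact absurd (hV F a b h1 (h2.trans hr) h3 h4) (not_le.2 h5)

end Pool.Agent.Y733.VR
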